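import Pool.Agent.ZST.Defs

/-!
# ZST CONVB: a `TR` gives a subgraph of `K_n` which is a tree
-/

namespace ZST

open Finset Classical

private theorem convb_aux {n : ℕ} {G : Type} [AddCommGroup G] {W : Sym2 (Fin n) → G}
    {E : Fin n → Fin n → Prop} {S : Finset (Fin n)} {s : G}
    (h : TR E (fun u v => W s(u, v)) S s) :
    ∃ T : (⊤ : SimpleGraph (Fin n)).Subgraph, T.Connected ∧ T.verts = (S : Set (Fin n)) ∧
      T.edgeSet.ncard + 1 = S.card ∧ (∀ u v, T.Adj u v → E u v ∨ E v u) ∧
      ∑ᶠ e ∈ T.edgeSet, W e = s := by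
  induction h with
  | single v =>
    refine ⟨(⊤ : SimpleGraph (Fin n)).singletonSubgraph v,
      SimpleGraph.Subgraph.singletonSubgraph_connected, ?_, ?_, ?_, ?_⟩
    · simp
    · simp
    · intro a b hab
      simp at hab
    · simp
  | @add S s u v h hu hv he ih =>
    obtain ⟨T, h1, h2, h3, h4, h5⟩ := ih
    have huv : u ≠ v := fun e => hv (e ▸ hu)
    have hadj : (⊤ : SimpleGraph (Fin n)).Adj u v := huv
    have hnot : s(u, v) ∉ T.edgeSet := by
      intro h6
      have h7 : T.Adj u v := SimpleGraph.Subgraph.mem_edgeSet.1 h6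
      have h8 := T.edge_vert h7.symm
      rw [h2] at h8
      exact hv (Finset.mem_coe.1 h8)
    have hedge : (T ⊔ (⊤ : SimpleGraph (Fin n)).subgraphOfAdj hadj).edgeSet =
        insert s(u, v) T.edgeSet := by
      rw [SimpleGraph.Subgraph.edgeSet_sup, SimpleGraph.edgeSet_subgraphOfAdj, Set.union_comm]
      rfl
    refine ⟨T ⊔ (⊤ : SimpleGraph (Fin n)).subgraphOfAdj hadj, ?_, ?_, ?_, ?_, ?_⟩
    · refine SimpleGraph.Subgraph.connected_sup h1.preconnected
        (SimpleGraph.Subgraph.subgraphOfAdj_connected hadj).preconnected ⟨u, ?_⟩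
      rw [SimpleGraph.Subgraph.verts_inf]
      refine ⟨?_, ?_⟩
      · rw [h2]
        exact Finset.mem_coe.2 hu
      · simp
    · rw [SimpleGraph.Subgraph.verts_sup, h2]
      ext x
      simp only [SimpleGraph.subgraphOfAdj_verts, Set.mem_union, Finset.mem_coe,
        Set.mem_insert_iff, Set.mem_singleton_iff, Finset.mem_insert]
      constructor
      · rintro (h6 | rfl | rfl)
        · exact Or.inr h6
        · exact Or.inr hu
        · exact Or.inl rfl
      · rintro (rfl | h6)
        · exact Or.inr (Or.inr rfl)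
        · exact Or.inl h6
    · rw [hedge, Set.ncard_insert_of_notMem hnot (Set.toFinite _), h3,
        Finset.card_insert_of_notMem hv]
    · intro a b hab
      rw [SimpleGraph.Subgraph.sup_adj] at hab
      rcases hab with hab | hab
      · exact h4 a b hab
      · rw [SimpleGraph.subgraphOfAdj_adj, Sym2.eq_iff] at hab
        rcases hab with ⟨rfl, rfl⟩ | ⟨rfl, rfl⟩
        · exact Or.inl he
        · exact Or.inr he
    · rw [hedge, finsum_mem_insert W hnot (Set.toFinite _), h5, add_comm]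

/-- ROW CONVB. A `TR` gives a subgraph of `K_n` which is a tree. -/
theorem copy_of_tr {m n : ℕ} {G : Type} [AddCommGroup G] {W : Sym2 (Fin n) → G}
    {E : Fin n → Fin n → Prop} {S : Finset (Fin n)} {s : G} (hS : S.card = m + 1)
    (h : TR E (fun u v => W s(u, v)) S s) :
    ∃ T : (⊤ : SimpleGraph (Fin n)).Subgraph, IsCopy m n T ∧
      (∀ u v, T.Adj u v → E u v ∨ E v u) ∧ ∑ᶠ e ∈ T.edgeSet, W e = s := by
  obtain ⟨T, h1, h2, h3, h4, h5⟩ := convb_aux h
  have hv : T.verts.ncard = S.card := by rw [h2, Set.ncard_coe_finset]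
  refine ⟨T, ⟨?_, by rw [hv, hS]⟩, h4, h5⟩
  rw [SimpleGraph.isTree_iff_connected_and_card]
  refine ⟨h1.coe, ?_⟩
  have he : Nat.card T.coe.edgeSet = T.edgeSet.ncard := by
    rw [← SimpleGraph.Subgraph.image_coe_edgeSet_coe T,
      Set.ncard_image_of_injective _ (Sym2.map.injective Subtype.val_injective)]
    rfl
  rw [he, h3, ← hv]
  rfl

end ZST
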