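import Pool.Agent.ZST.Defs

/-!
# ZST, row GROW: adding the edges of one label one by one
-/

namespace ZST

open Finset Classical

set_option linter.unusedSectionVars false

variable {V : Type} [Fintype V] [DecidableEq V]

private theorem grow_exit {Γ : SimpleGraph V} {S : Finset V} {a c : V} (h : Γ.Walk a c) :
    a ∈ S → c ∉ S → ∃ x ∈ S, ∃ y, y ∉ S ∧ Γ.Adj x y ∧ Γ.Reachable a y := by
  induction h with
  | nil => intro h1 h2; exact absurd h1 h2
  | @cons u v w huv q ih =>
    intro h1 h2
    by_cases hv : v ∈ S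
    · obtain ⟨x, hx, y, hy, hxy, hr⟩ := ih hv h2
      exact ⟨x, hx, y, hy, hxy, huv.reachable.trans hr⟩
    · exact ⟨u, h1, v, hv, huv, huv.reachable⟩

private theorem grow_mem_comp {G : Type} {H : SimpleGraph V} {w : V → V → G} {b : G}
    {v u : V} : u ∈ comp H w b v ↔ (lg H w b).Reachable v u := by
  unfold comp cp
  rw [mem_filter]
  simp

/-- If `S` meets the `b`-component of `v`, add `b`-edges one by one. -/
theorem grow {G : Type} [AddCommGroup G] {H : SimpleGraph V} {w : V → V → G} {b : G} {v : V}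
    {S : Finset V} {s : G} (hT : TR H.Adj w S s) (hm : ∃ u ∈ S, u ∈ comp H w b v) (k : ℕ)
    (hk : S.card ≤ k) (hk' : k ≤ (S ∪ comp H w b v).card) :
    ∃ S' : Finset V, S ⊆ S' ∧ S' ⊆ S ∪ comp H w b v ∧ S'.card = k ∧
      TR H.Adj w S' (s + (k - S.card) • b) := by
  obtain ⟨u, huS, hu⟩ := hm
  rw [grow_mem_comp] at hu
  induction k, hk using Nat.le_induction with
  | base =>
    refine ⟨S, Subset.rfl, subset_union_left, rfl, ?_⟩
    rw [Nat.sub_self, zero_nsmul, add_zero]
    exact hT
  | succ k hk ih =>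
    obtain ⟨S', h1, h2, h3, h4⟩ := ih (by omega)
    have hne : ∃ z ∈ S ∪ comp H w b v, z ∉ S' := by
      by_contra hcon
      push Not at hcon
      have := card_le_card (show S ∪ comp H w b v ⊆ S' from fun z hz => hcon z hz)
      omega
    obtain ⟨z, hz, hzS⟩ := hne
    have hz2 : z ∈ comp H w b v := by
      rcases mem_union.1 hz with h | h
      · exact absurd (h1 h) hzS
      · exact h
    rw [grow_mem_comp] at hz2
    obtain ⟨q⟩ := hu.symm.trans hz2
    obtain ⟨x, hx, y, hy, hxy, hr⟩ := grow_exit q (h1 huS) hzS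
    refine ⟨insert y S', fun a ha => mem_insert_of_mem (h1 ha), ?_, ?_, ?_⟩
    · intro a ha
      rcases mem_insert.1 ha with rfl | ha
      · exact mem_union_right _ (grow_mem_comp.2 (hu.trans hr))
      · exact h2 ha
    · rw [card_insert_of_notMem hy, h3]
    · have h5 := TR.add h4 hx hy hxy.1
      rw [hxy.2.1] at h5
      have h6 : k + 1 - S.card = (k - S.card) + 1 := by omega
      rw [h6, succ_nsmul, ← add_assoc]
      exact h5

end ZST
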