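import Pool.Agent.ZST.Defs

/-!
# ZST, row EXT: extending a connected core by one vertex
-/

namespace ZST

open Finset Classical

set_option linter.unusedSectionVars false

variable {V : Type} [Fintype V] [DecidableEq V]

/-- ROW EXT. -/
theorem ext_core {G : Type} [AddCommGroup G] {H : SimpleGraph V} {w : V → V → G}
    (hdiam : ∀ u v, u ≠ v → H.Adj u v ∨ ∃ z, H.Adj u z ∧ H.Adj z v)
    (K : Finset V) (hK : Core H w K) (y : V) :
    ∃ K', Core H w K' ∧ K ⊆ K' ∧ y ∈ K' ∧ K'.card ≤ K.card + 2 := by
  by_cases hy : y ∈ K
  · exact ⟨K, hK, Finset.Subset.refl K, hy, by omega⟩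
  · obtain ⟨s, hs⟩ := hK
    have hne : K.Nonempty := by
      cases hs with
      | single v => exact ⟨v, by simp⟩
      | add h hu hv he => exact ⟨_, Finset.mem_insert_self _ _⟩
    obtain ⟨k, hk⟩ := hne
    have hky : k ≠ y := fun h => hy (h ▸ hk)
    rcases hdiam k y hky with h | ⟨z, hkz, hzy⟩
    · refine ⟨insert y K, ⟨_, TR.add hs hk hy h⟩, Finset.subset_insert _ _,
        Finset.mem_insert_self _ _, ?_⟩
      rw [Finset.card_insert_of_notMem hy]
      omega
    · by_cases hz : z ∈ K
      · refine ⟨insert y K, ⟨_, TR.add hs hz hy hzy⟩, Finset.subset_insert _ _,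
          Finset.mem_insert_self _ _, ?_⟩
        rw [Finset.card_insert_of_notMem hy]
        omega
      · have h1 : TR H.Adj w (insert z K) (s + w k z) := TR.add hs hk hz hkz
        have hyz : y ∉ insert z K := by
          rw [Finset.mem_insert]
          rintro (h | h)
          · exact H.loopless.irrefl _ (h ▸ hzy)
          · exact hy h
        refine ⟨insert y (insert z K), ⟨_, TR.add h1 (Finset.mem_insert_self z K) hyz hzy⟩, ?_,
          Finset.mem_insert_self _ _, ?_⟩
        · exact (Finset.subset_insert _ _).trans (Finset.subset_insert _ _)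
        · rw [Finset.card_insert_of_notMem hyz, Finset.card_insert_of_notMem hz]

end ZST
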