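import Pool.Agent.ZST.Defs
import Pool.Agent.ZST.EXT
import Pool.Agent.ZST.DOM

/-! Row STAB: a stable core. -/

namespace ZST

open Finset Classical

variable {V : Type} [Fintype V] [DecidableEq V]

omit [Fintype V] in
theorem stab_lab {G : Type} {H : SimpleGraph V} {w : V → V → G} {K K' : Finset V} (h : K ⊆ K')
    (x : V) : lab H w K x ⊆ lab H w K' x := by
  intro a ha
  rw [lab, Finset.mem_image] at ha ⊢
  obtain ⟨k, hk, rfl⟩ := ha
  rw [Finset.mem_filter] at hk
  exact ⟨k, Finset.mem_filter.2 ⟨h hk.1, hk.2⟩, rfl⟩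

theorem stab_und {H : SimpleGraph V} {K K' : Finset V} (h : K ⊆ K') : und H K' ⊆ und H K := by
  intro x hx
  rw [und, Finset.mem_filter] at hx ⊢
  exact ⟨hx.1, fun h1 => hx.2.1 (h h1), fun k hk => hx.2.2 k (h hk)⟩

/-- the count for two different labels -/
theorem stab_count {G : Type} {H : SimpleGraph V} {w : V → V → G} {K K' : Finset V}
    (h : K ⊆ K') (b b0 : G) (hb : b ≠ b0) :
    Fintype.card V ≤ K'.card + (zlab H w K' b).card + (und H K).card +
      (zlab H w K b0).card := by
  have hcov : (Finset.univ : Finset V) ⊆ K' ∪ zlab H w K' b ∪ und H K ∪ zlab H w K b0 := by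
    intro x _
    by_contra hx
    simp only [Finset.mem_union, not_or] at hx
    obtain ⟨⟨⟨h1, h2⟩, h3⟩, h4⟩ := hx
    have hxK : x ∉ K := fun h5 => h1 (h h5)
    rw [zlab, Finset.mem_filter] at h2
    rw [und, Finset.mem_filter] at h3
    rw [zlab, Finset.mem_filter] at h4
    apply h3
    refine ⟨Finset.mem_univ _, hxK, ?_⟩
    intro k hk hadj
    have h5 : w k x ∈ lab H w K x := by
      rw [lab, Finset.mem_image]
      exact ⟨k, Finset.mem_filter.2 ⟨hk, hadj⟩, rfl⟩
    have h6 : w k x = b := by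
      by_contra h7
      exact h2 ⟨Finset.mem_univ _, h1, _, stab_lab h x h5, h7⟩
    apply h4
    refine ⟨Finset.mem_univ _, hxK, _, h5, ?_⟩
    rw [h6]
    exact hb
  calc Fintype.card V = (Finset.univ : Finset V).card := Finset.card_univ.symm
    _ ≤ (K' ∪ zlab H w K' b ∪ und H K ∪ zlab H w K b0).card := Finset.card_le_card hcov
    _ ≤ (K' ∪ zlab H w K' b ∪ und H K).card + (zlab H w K b0).card := Finset.card_union_le _ _
    _ ≤ (K' ∪ zlab H w K' b).card + (und H K).card + (zlab H w K b0).card := by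
        have := Finset.card_union_le (K' ∪ zlab H w K' b) (und H K)
        omega
    _ ≤ _ := by
        have := Finset.card_union_le K' (zlab H w K' b)
        omega

/-- enlarging the core by `y` makes the labels at `y` visible -/
theorem stab_step {G : Type} {H : SimpleGraph V} {w : V → V → G} {K K' : Finset V}
    (h : K ⊆ K') (y : V) (hy : y ∈ K') (hc : K'.card ≤ K.card + 2) (b : G) (F : Finset V)
    (hF : ∀ x ∈ F, x ∉ K ∧ lab H w K x = {b} ∧ H.Adj y x ∧ w y x ≠ b) :
    (zlab H w K b).card + F.card ≤ (zlab H w K' b).card + 2 := by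
  have hdis : Disjoint (zlab H w K b) F := by
    rw [Finset.disjoint_left]
    intro x hx hx'
    rw [zlab, Finset.mem_filter] at hx
    obtain ⟨a, ha, hab⟩ := hx.2.2
    rw [(hF x hx').2.1, Finset.mem_singleton] at ha
    exact hab ha
  have hsub : zlab H w K b ∪ F ⊆ zlab H w K' b ∪ (K' \ K) := by
    intro x hx
    rw [Finset.mem_union] at hx ⊢
    have hxK : x ∉ K := by
      rcases hx with hx | hx
      · rw [zlab, Finset.mem_filter] at hx
        exact hx.2.1
      · exact (hF x hx).1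
    by_cases hxK' : x ∈ K'
    · right
      exact Finset.mem_sdiff.2 ⟨hxK', hxK⟩
    · left
      rcases hx with hx | hx
      · rw [zlab, Finset.mem_filter] at hx ⊢
        obtain ⟨a, ha, hab⟩ := hx.2.2
        exact ⟨Finset.mem_univ _, hxK', a, stab_lab h x ha, hab⟩
      · have hx' := hF x hx
        rw [zlab, Finset.mem_filter]
        refine ⟨Finset.mem_univ _, hxK', w y x, ?_, hx'.2.2.2⟩
        rw [lab, Finset.mem_image]
        exact ⟨y, Finset.mem_filter.2 ⟨hy, hx'.2.2.1⟩, rfl⟩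
  have h1 := Finset.card_le_card hsub
  rw [Finset.card_union_of_disjoint hdis] at h1
  have h2 := Finset.card_union_le (zlab H w K' b) (K' \ K)
  have h3 := Finset.card_sdiff_add_card_eq_card h
  omega

/-- ROW STAB. Uses EXT, DOM. -/
theorem stable_core {p : ℕ} (hp : 10 ^ 13 ≤ p) [Nonempty V] {H : SimpleGraph V}
    {w : V → V → ZMod p} (hsym : ∀ u v, w u v = w v u)
    (hdiam : ∀ u v, u ≠ v → H.Adj u v ∨ ∃ z, H.Adj u z ∧ H.Adj z v)
    (hdeg : ∀ v, p ≤ (nb H v).card) (hn : 3 * p - 1 ≤ Fintype.card V)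
    (hn' : Fintype.card V ≤ 4 * p)
    (hW : ∀ K, Core H w K → K.card ≤ 100000 → 200 * (und H K).card ≤ p →
      ∃ b, (zlab H w K b).card ≤ p + 2) :
    ∃ K b, Core H w K ∧ K.card ≤ 100000 ∧ 200 * (und H K).card ≤ p ∧
      (zlab H w K b).card ≤ p + 2 ∧
      ∀ y, 40000 * (univ.filter (fun x => x ∉ K ∧ lab H w K x = {b} ∧ H.Adj y x ∧
        w y x ≠ b)).card ≤ p := by
  obtain ⟨K0, hK0, hK0c, hK0u⟩ := exists_dom (w := w) hdiam p hdeg hn'
  obtain ⟨b0, hb0⟩ := hW K0 hK0 (by omega) hK0u
  have hund : ∀ K, K0 ⊆ K → 200 * (und H K).card ≤ p := by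
    intro K hK
    have := Finset.card_le_card (stab_und (H := H) hK)
    omega
  have hclaim : ∀ K, Core H w K → K0 ⊆ K → K.card ≤ 100000 → (zlab H w K b0).card ≤ p + 2 := by
    intro K hK hKK hKc
    obtain ⟨b, hb⟩ := hW K hK hKc (hund K hKK)
    by_cases hbb : b = b0
    · rw [← hbb]; exact hb
    · exfalso
      have := stab_count (H := H) (w := w) hKK b b0 hbb
      omega
  by_contra hcon
  push Not at hcon
  have hstep : ∀ j : ℕ, j ≤ 40001 → ∃ K, Core H w K ∧ K0 ⊆ K ∧ K.card ≤ 49 + 2 * j ∧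
      j * (p - 80000) ≤ 40000 * (zlab H w K b0).card := by
    intro j
    induction j with
    | zero =>
      intro _
      exact ⟨K0, hK0, Finset.Subset.refl _, by omega, by simp⟩
    | succ j ih =>
      intro hj
      obtain ⟨K, hK, hKK, hKc, hKz⟩ := ih (by omega)
      have hz := hclaim K hK hKK (by omega)
      obtain ⟨y, hy⟩ := hcon K b0 hK (by omega) (hund K hKK) hz
      obtain ⟨K', hK', hKK', hyK', hKc'⟩ := ext_core hdiam K hK y
      refine ⟨K', hK', hKK.trans hKK', by omega, ?_⟩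
      have hex : ∃ F : Finset V, (∀ x ∈ F, x ∉ K ∧ lab H w K x = {b0} ∧ H.Adj y x ∧
          w y x ≠ b0) ∧ p < 40000 * F.card := by
        refine ⟨_, ?_, hy⟩
        intro x hx
        exact (Finset.mem_filter.1 hx).2
      obtain ⟨F, hF, hFc⟩ := hex
      have h1 := stab_step (H := H) (w := w) hKK' y hyK' hKc' b0 F hF
      have h2 : (j + 1) * (p - 80000) = j * (p - 80000) + (p - 80000) := by ring
      omega
  obtain ⟨K, hK, hKK, hKc, hKz⟩ := hstep 40001 le_rfl
  have hz := hclaim K hK hKK (by omega)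
  omega

end ZST
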