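import Pool.Agent.ZST.Defs

/-!
# Hanging leaves on a tree
-/

namespace ZST

open Finset Classical

variable {V : Type} [Fintype V] [DecidableEq V]

/-- ROW FAN. Hang leaves on a tree. Induction on `L`. -/
theorem TR.fan {G : Type} [AddCommGroup G] {E : V → V → Prop} {w : V → V → G} {K : Finset V}
    {s : G} (h : TR E w K s) (L : Finset V) (hd : Disjoint K L) (f : V → V)
    (hf : ∀ x ∈ L, f x ∈ K ∧ E (f x) x) : TR E w (K ∪ L) (s + ∑ x ∈ L, w (f x) x) := by
  induction L using Finset.induction_on with
  | empty =>
    rw [Finset.sum_empty, add_zero, Finset.union_empty]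
    exact h
  | insert x L hx ih =>
    rw [Finset.disjoint_insert_right] at hd
    have h1 := ih hd.2 (fun y hy => hf y (Finset.mem_insert_of_mem hy))
    have h2 := hf x (Finset.mem_insert_self x L)
    have h3 : x ∉ K ∪ L := by
      rw [Finset.mem_union]
      rintro (h3 | h3)
      · exact hd.1 h3
      · exact hx h3
    have h4 := TR.add h1 (Finset.mem_union_left L h2.1) h3 h2.2
    rw [Finset.sum_insert hx, Finset.union_insert, add_comm (w (f x) x), ← add_assoc]
    exact h4

end ZST
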