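import Pool.Agent.ZST.Defs2

/-!
# The L2 inequality of a cut
-/

namespace ZST

open Finset Classical

variable {V : Type} [Fintype V] [DecidableEq V]

private noncomputable def c1a (Γ : SimpleGraph V) (C : Finset V) (u x : V) : ℤ :=
  if Γ.Adj u x ∧ (x ∈ C ↔ u ∉ C) then 1 else 0

private theorem c1_cd (Γ : SimpleGraph V) (C : Finset V) (u : V) :
    (cd Γ C u : ℤ) = ∑ x, c1a Γ C u x := by
  unfold cd c1a
  rw [Finset.card_filter]
  push_cast
  rfl

private theorem c1_symm (Γ : SimpleGraph V) (C : Finset V) (u x : V) :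
    c1a Γ C u x = c1a Γ C x u := by
  unfold c1a
  have : (Γ.Adj u x ∧ (x ∈ C ↔ u ∉ C)) ↔ (Γ.Adj x u ∧ (u ∈ C ↔ x ∉ C)) := by
    rw [Γ.adj_comm]
    tauto
  simp only [this]

private theorem c1_swap (Γ : SimpleGraph V) (C : Finset V) (f : V → ℤ) :
    ∑ u, ∑ x, c1a Γ C u x * f u = ∑ u, ∑ x, c1a Γ C u x * f x := by
  rw [Finset.sum_comm]
  refine Finset.sum_congr rfl fun u _ => Finset.sum_congr rfl fun x _ => ?_
  rw [c1_symm]

private theorem c1_pair {Γ : SimpleGraph V} {C : Finset V} {p : ℕ}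
    (hcomp : ∀ u, (cp Γ u).card ≤ p) {u x : V} (hux : Γ.Adj u x) (hc : x ∈ C ↔ u ∉ C) :
    cd Γ C u + cd Γ C x ≤ p := by
  unfold cd
  rw [← Finset.card_union_of_disjoint]
  · refine le_trans (Finset.card_le_card ?_) (hcomp u)
    intro y hy
    rw [Finset.mem_union, Finset.mem_filter, Finset.mem_filter] at hy
    unfold cp
    rw [Finset.mem_filter]
    refine ⟨Finset.mem_univ _, ?_⟩
    rcases hy with hy | hy
    · exact hy.2.1.reachable
    · exact hux.reachable.trans hy.2.1.reachable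
  · rw [Finset.disjoint_left]
    intro y h1 h2
    rw [Finset.mem_filter] at h1 h2
    have h3 := h1.2.2
    have h4 := h2.2.2
    tauto

private theorem c1_sq {Γ : SimpleGraph V} {C : Finset V} {p : ℕ}
    (hcomp : ∀ u, (cp Γ u).card ≤ p) :
    2 * ∑ u, (cd Γ C u : ℤ) ^ 2 ≤ p * ∑ u, (cd Γ C u : ℤ) := by
  have h1 : ∑ u, (cd Γ C u : ℤ) ^ 2 = ∑ u, ∑ x, c1a Γ C u x * (cd Γ C u : ℤ) := by
    refine Finset.sum_congr rfl fun u _ => ?_
    rw [← Finset.sum_mul, ← c1_cd, pow_two]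
  have h2 : 2 * ∑ u, (cd Γ C u : ℤ) ^ 2 =
      ∑ u, ∑ x, c1a Γ C u x * ((cd Γ C u : ℤ) + cd Γ C x) := by
    rw [two_mul]
    nth_rewrite 2 [h1]
    rw [h1, c1_swap]
    nth_rewrite 1 [← c1_swap]
    rw [← Finset.sum_add_distrib]
    refine Finset.sum_congr rfl fun u _ => ?_
    rw [← Finset.sum_add_distrib]
    refine Finset.sum_congr rfl fun x _ => ?_
    ring
  rw [h2, Finset.mul_sum]
  refine Finset.sum_le_sum fun u _ => ?_
  rw [c1_cd Γ C u, Finset.mul_sum]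
  refine Finset.sum_le_sum fun x _ => ?_
  rw [← c1_cd]
  unfold c1a
  split_ifs with h
  · have := c1_pair hcomp h.1 h.2
    have h' : (cd Γ C u : ℤ) + cd Γ C x ≤ p := by exact_mod_cast this
    linarith
  · simp

private theorem c1_tg (Γ : SimpleGraph V) (C : Finset V) :
    2 * ∑ u, (tg C u : ℤ) * cd Γ C u = (Fintype.card V : ℤ) * ∑ u, (cd Γ C u : ℤ) := by
  have hk : C.card ≤ Fintype.card V := Finset.card_le_univ C
  have h1 : ∑ u, (tg C u : ℤ) * cd Γ C u = ∑ u, ∑ x, c1a Γ C u x * (tg C u : ℤ) := by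
    refine Finset.sum_congr rfl fun u _ => ?_
    rw [← Finset.sum_mul, ← c1_cd, mul_comm]
  have h2 : 2 * ∑ u, (tg C u : ℤ) * cd Γ C u =
      ∑ u, ∑ x, c1a Γ C u x * ((tg C u : ℤ) + tg C x) := by
    have h3 : ∑ u, (tg C u : ℤ) * cd Γ C u = ∑ u, ∑ x, c1a Γ C u x * (tg C x : ℤ) := by
      rw [h1, c1_swap]
    rw [two_mul]
    nth_rewrite 1 [h1]
    rw [h3, ← Finset.sum_add_distrib]
    refine Finset.sum_congr rfl fun u _ => ?_
    rw [← Finset.sum_add_distrib]
    refine Finset.sum_congr rfl fun x _ => ?_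
    ring
  rw [h2, Finset.mul_sum]
  refine Finset.sum_congr rfl fun u _ => ?_
  rw [c1_cd Γ C u, Finset.mul_sum]
  refine Finset.sum_congr rfl fun x _ => ?_
  unfold c1a
  split_ifs with h
  · have h3 : (tg C u : ℤ) + tg C x = Fintype.card V := by
      unfold tg
      by_cases hu : u ∈ C
      · have hx : x ∉ C := fun hx => (h.2.1 hx) hu
        rw [if_pos hu, if_neg hx]
        push_cast [Nat.cast_sub hk]
        ring
      · have hx : x ∈ C := h.2.2 hu
        rw [if_neg hu, if_pos hx]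
        push_cast [Nat.cast_sub hk]
        ring
    rw [h3]
    ring
  · ring

private theorem c1_tg2 (C : Finset V) :
    ∑ u, (tg C u : ℤ) ^ 2 = C.card * ((Fintype.card V : ℤ) - C.card) * Fintype.card V := by
  have hk : C.card ≤ Fintype.card V := Finset.card_le_univ C
  rw [← Finset.sum_add_sum_compl C]
  have h1 : ∑ u ∈ C, (tg C u : ℤ) ^ 2 = C.card * ((Fintype.card V : ℤ) - C.card) ^ 2 := by
    rw [Finset.sum_congr rfl (g := fun _ => ((Fintype.card V : ℤ) - C.card) ^ 2),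
      Finset.sum_const, nsmul_eq_mul]
    intro u hu
    unfold tg
    rw [if_pos hu, Nat.cast_sub hk]
  have h2 : ∑ u ∈ Cᶜ, (tg C u : ℤ) ^ 2 = ((Fintype.card V : ℤ) - C.card) * (C.card : ℤ) ^ 2 := by
    rw [Finset.sum_congr rfl (g := fun _ => (C.card : ℤ) ^ 2), Finset.sum_const, nsmul_eq_mul,
      Finset.card_compl, Nat.cast_sub hk]
    intro u hu
    unfold tg
    rw [if_neg (Finset.mem_compl.1 hu)]
  rw [h1, h2]
  ring

private theorem c1_half (Γ : SimpleGraph V) (C : Finset V) :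
    ∑ u, (cd Γ C u : ℤ) = 2 * ∑ u ∈ C, (cd Γ C u : ℤ) := by
  have h0 : ∑ u ∈ C, (cd Γ C u : ℤ) =
      ∑ u, ∑ x, c1a Γ C u x * (if u ∈ C then (1 : ℤ) else 0) := by
    rw [← Finset.sum_filter_add_sum_filter_not univ (fun u => u ∈ C)]
    rw [Finset.sum_eq_zero (s := univ.filter (fun u => u ∉ C)), add_zero]
    · rw [Finset.filter_mem_eq_inter, Finset.univ_inter]
      refine Finset.sum_congr rfl fun u hu => ?_
      rw [← Finset.sum_mul, if_pos hu, mul_one, ← c1_cd]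
    · intro u hu
      rw [Finset.mem_filter] at hu
      rw [← Finset.sum_mul, if_neg hu.2, mul_zero]
  have h1 : ∑ u ∈ C, (cd Γ C u : ℤ) =
      ∑ u, ∑ x, c1a Γ C u x * (if x ∈ C then (1 : ℤ) else 0) := by
    rw [h0]
    exact c1_swap Γ C (fun u => if u ∈ C then (1 : ℤ) else 0)
  have h2 : ∑ u, (cd Γ C u : ℤ) = ∑ u, ∑ x, c1a Γ C u x * (if u ∈ C then (1 : ℤ) else 0) +
      ∑ u, ∑ x, c1a Γ C u x * (if x ∈ C then (1 : ℤ) else 0) := by
    rw [← Finset.sum_add_distrib]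
    refine Finset.sum_congr rfl fun u _ => ?_
    rw [← Finset.sum_add_distrib, c1_cd]
    refine Finset.sum_congr rfl fun x _ => ?_
    unfold c1a
    split_ifs with h h3 h4 h4
    · exact absurd h3 (h.2.1 h4)
    · ring
    · ring
    · exact absurd (h.2.2 h3) h4
    all_goals ring
  rw [h2, ← h0, ← h1]
  ring

private theorem c1_low {p c : ℕ} {Γ : Fin 4 → SimpleGraph V} (h : Four V p c Γ) (s : Fin 4)
    (v : V) {u : V} (hu : u ∈ cp (Γ s) v) :
    Fintype.card V ≤ (cp (Γ s) v).card + c +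
      ∑ t ∈ univ.filter (fun t => t ≠ s), cd (Γ t) (cp (Γ s) v) u := by
  set C := cp (Γ s) v with hC
  have hsub : Cᶜ ⊆ (univ.filter (fun x => x ≠ u ∧ ∀ t, ¬ (Γ t).Adj u x)) ∪
      (univ.filter (fun t => t ≠ s)).biUnion
        (fun t => univ.filter (fun x => (Γ t).Adj u x ∧ (x ∈ C ↔ u ∉ C))) := by
    intro x hx
    rw [Finset.mem_compl] at hx
    rw [Finset.mem_union, Finset.mem_filter, Finset.mem_biUnion]
    by_cases hex : ∀ t, ¬ (Γ t).Adj u x
    · left
      refine ⟨Finset.mem_univ _, ?_, hex⟩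
      rintro rfl
      exact hx hu
    · right
      push Not at hex
      obtain ⟨t, ht⟩ := hex
      refine ⟨t, ?_, ?_⟩
      · rw [Finset.mem_filter]
        refine ⟨Finset.mem_univ _, ?_⟩
        rintro rfl
        apply hx
        rw [hC] at hu ⊢
        unfold cp at hu ⊢
        rw [Finset.mem_filter] at hu ⊢
        exact ⟨Finset.mem_univ _, hu.2.trans ht.reachable⟩
      · rw [Finset.mem_filter]
        exact ⟨Finset.mem_univ _, ht, fun h1 => absurd h1 hx, fun h1 => absurd hu h1⟩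
  have h1 := Finset.card_le_card hsub
  rw [Finset.card_compl] at h1
  have h2 := Finset.card_union_le (univ.filter (fun x => x ≠ u ∧ ∀ t, ¬ (Γ t).Adj u x))
    ((univ.filter (fun t => t ≠ s)).biUnion
        (fun t => univ.filter (fun x => (Γ t).Adj u x ∧ (x ∈ C ↔ u ∉ C))))
  have h3 : ((univ.filter (fun t => t ≠ s)).biUnion
        (fun t => univ.filter (fun x => (Γ t).Adj u x ∧ (x ∈ C ↔ u ∉ C)))).card ≤
      ∑ t ∈ univ.filter (fun t => t ≠ s), cd (Γ t) C u := Finset.card_biUnion_le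
  have h4 := h.hexc u
  omega

/-- ROW C1. The L2 inequality of the cut `(C, V - C)`, `C` a component of colour `s`. -/
theorem c_var {p c : ℕ} {Γ : Fin 4 → SimpleGraph V} (h : Four V p c Γ) (s : Fin 4) (v : V) :
    ∑ t ∈ univ.filter (fun t => t ≠ s), ∑ u : V,
      (3 * (cd (Γ t) (cp (Γ s) v) u : ℤ) - tg (cp (Γ s) v) u) ^ 2 ≤ 2 * 10 ^ 7 * (p : ℤ) ^ 2 := by
  set C := cp (Γ s) v with hC
  obtain ⟨k, hk⟩ : ∃ k : ℤ, k = C.card := ⟨_, rfl⟩
  obtain ⟨n, hn⟩ : ∃ n : ℤ, n = Fintype.card V := ⟨_, rfl⟩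
  have hk0 : 0 ≤ k := by rw [hk]; exact Int.natCast_nonneg _
  have hkn : k ≤ n := by rw [hk, hn]; exact_mod_cast Finset.card_le_univ C
  have hkp : k ≤ p := by rw [hk]; exact_mod_cast h.hcomp s v
  have hp1 : (1 : ℤ) ≤ p := by
    have := h.hp
    have h1 : 1 ≤ p := by omega
    exact_mod_cast h1
  have hn1 : 3 * (p : ℤ) - 1 ≤ n := by
    have h1 := h.hn
    have h2 : 3 * p ≤ Fintype.card V + 1 := by omega
    rw [hn]
    have h3 : (3 * p : ℤ) ≤ Fintype.card V + 1 := by exact_mod_cast h2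
    linarith
  have hn4 : n ≤ 4 * p := by rw [hn]; exact_mod_cast h.hn'
  have hc0 : (0 : ℤ) ≤ c := Int.natCast_nonneg _
  have hc6 : (c : ℤ) ≤ 10 ^ 6 := by exact_mod_cast h.hc
  -- one colour
  have h1 : ∀ t, 2 * ∑ u : V, (3 * (cd (Γ t) C u : ℤ) - tg C u) ^ 2 ≤
      (9 * p - 6 * n) * (∑ u, (cd (Γ t) C u : ℤ)) + 2 * (k * (n - k) * n) := by
    intro t
    have e1 := c1_sq (Γ := Γ t) (C := C) (p := p) (h.hcomp t)
    have e2 := c1_tg (Γ t) C
    have e3 := c1_tg2 C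
    rw [← hn] at e2
    rw [← hn, ← hk] at e3
    have e4 : ∑ u : V, (3 * (cd (Γ t) C u : ℤ) - tg C u) ^ 2 =
        9 * ∑ u, (cd (Γ t) C u : ℤ) ^ 2 - 6 * ∑ u, (tg C u : ℤ) * cd (Γ t) C u +
          ∑ u, (tg C u : ℤ) ^ 2 := by
      rw [Finset.mul_sum, Finset.mul_sum, ← Finset.sum_sub_distrib, ← Finset.sum_add_distrib]
      refine Finset.sum_congr rfl fun u _ => ?_
      ring
    rw [e4, e3]
    linarith
  have h2 := Finset.sum_le_sum fun t (_ : t ∈ univ.filter (fun t => t ≠ s)) => h1 t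
  rw [← Finset.mul_sum, Finset.sum_add_distrib, Finset.sum_const, ← Finset.mul_sum] at h2
  have hcard : (univ.filter (fun t : Fin 4 => t ≠ s)).card = 3 := by
    rw [Finset.filter_ne', Finset.card_erase_of_mem (Finset.mem_univ _), Finset.card_univ,
      Fintype.card_fin]
  rw [hcard] at h2
  -- the lower bound for the number of cross edges
  have h3 : 2 * (k * (n - k - c)) ≤
      ∑ t ∈ univ.filter (fun t => t ≠ s), ∑ u, (cd (Γ t) C u : ℤ) := by
    have e1 : ∑ t ∈ univ.filter (fun t => t ≠ s), ∑ u, (cd (Γ t) C u : ℤ) =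
        2 * ∑ u ∈ C, ∑ t ∈ univ.filter (fun t => t ≠ s), (cd (Γ t) C u : ℤ) := by
      rw [Finset.sum_comm (s := C), Finset.mul_sum]
      exact Finset.sum_congr rfl fun t _ => c1_half (Γ t) C
    rw [e1]
    refine mul_le_mul_of_nonneg_left ?_ (by norm_num)
    have e2 : ∑ u ∈ C, (n - k - c) ≤
        ∑ u ∈ C, ∑ t ∈ univ.filter (fun t => t ≠ s), (cd (Γ t) C u : ℤ) := by
      refine Finset.sum_le_sum fun u hu => ?_
      have e3 := c1_low h s v hu
      rw [← hC] at e3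
      have e4 : (Fintype.card V : ℤ) ≤ C.card + c +
        ∑ t ∈ univ.filter (fun t => t ≠ s), (cd (Γ t) C u : ℤ) := by exact_mod_cast e3
      rw [hn, hk]
      linarith
    rw [Finset.sum_const, nsmul_eq_mul, ← hk] at e2
    exact e2
  obtain ⟨Z, hZ⟩ : ∃ Z, Z = ∑ t ∈ univ.filter (fun t => t ≠ s), ∑ u, (cd (Γ t) C u : ℤ) :=
    ⟨_, rfl⟩
  rw [← hZ] at h2 h3
  have h4 : (9 * p - 6 * n) * Z ≤ (9 * p - 6 * n) * (2 * (k * (n - k - c))) :=
    mul_le_mul_of_nonpos_left h3 (by linarith)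
  have h5 : 3 • (2 * (k * (n - k) * n)) = 6 * (k * (n - k) * n) := by
    rw [nsmul_eq_mul]
    push_cast
    ring
  rw [h5] at h2
  have hb0 : 0 ≤ k * (n - k) := mul_nonneg hk0 (by linarith)
  have hb1 : k * (n - k) ≤ p * (4 * p) :=
    mul_le_mul hkp (by linarith) (by linarith) (by linarith)
  have hb2 : k * (n - k) * (9 * p - 3 * n) ≤ k * (n - k) * 3 :=
    mul_le_mul_of_nonneg_left (by linarith) hb0
  have hb3 : (6 * n - 9 * p) * (c * k) ≤ (15 * p) * (10 ^ 6 * p) := by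
    refine mul_le_mul (by linarith) (mul_le_mul hc6 hkp hk0 (by norm_num))
      (mul_nonneg hc0 hk0) (by linarith)
  have e : (9 * (p : ℤ) - 6 * n) * (2 * (k * (n - k - c))) + 6 * (k * (n - k) * n) =
      2 * (k * (n - k) * (9 * p - 3 * n) + (6 * n - 9 * p) * (c * k)) := by ring
  nlinarith

end ZST
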