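import Pool.Agent.ZST.Defs2
import Pool.Agent.ZST.C1

/-!
# ZST, row C2
-/

namespace ZST

open Finset Classical

variable {V : Type} [Fintype V] [DecidableEq V]

/-- ROW C2. Uses C1. -/
theorem c_bad {p c : ℕ} {Γ : Fin 4 → SimpleGraph V} (h : Four V p c Γ) (s : Fin 4) (v : V) :
    ∃ B : Finset V, B.card ≤ 3 * 10 ^ 10 ∧ ∀ u ∉ B, ∀ t, t ≠ s →
      100 * |3 * (cd (Γ t) (cp (Γ s) v) u : ℤ) - tg (cp (Γ s) v) u| ≤ 3 * p := by
  set f : Fin 4 → V → ℤ := fun t u =>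
    3 * (cd (Γ t) (cp (Γ s) v) u : ℤ) - tg (cp (Γ s) v) u with hf
  refine ⟨univ.filter (fun u => ∃ t, t ≠ s ∧ 3 * (p : ℤ) < 100 * |f t u|), ?_, ?_⟩
  · have hvar := c_var h s v
    set B : Finset V := univ.filter (fun u => ∃ t, t ≠ s ∧ 3 * (p : ℤ) < 100 * |f t u|) with hB
    rw [Finset.sum_comm] at hvar
    have h1 : ∀ u ∈ B, 9 * (p : ℤ) ^ 2 + 1 ≤ 10 ^ 4 *
        ∑ t ∈ univ.filter (fun t => t ≠ s), (f t u) ^ 2 := by
      intro u hu
      rw [hB, mem_filter] at hu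
      obtain ⟨t, hts, ht⟩ := hu.2
      have h2 : (f t u) ^ 2 ≤ ∑ t ∈ univ.filter (fun t => t ≠ s), (f t u) ^ 2 :=
        Finset.single_le_sum (f := fun t => (f t u) ^ 2) (fun i _ => sq_nonneg _)
          (mem_filter.2 ⟨mem_univ _, hts⟩)
      have h3 : (100 * |f t u|) ^ 2 = 10 ^ 4 * (f t u) ^ 2 := by
        rw [mul_pow, sq_abs]; norm_num
      have h4 : (3 * (p : ℤ)) ^ 2 < (100 * |f t u|) ^ 2 := by
        have hp : (0 : ℤ) ≤ p := Int.natCast_nonneg p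
        nlinarith
      nlinarith
    have h5 : (B.card : ℤ) * (9 * (p : ℤ) ^ 2 + 1) ≤ 10 ^ 4 * (2 * 10 ^ 7 * (p : ℤ) ^ 2) := by
      calc (B.card : ℤ) * (9 * (p : ℤ) ^ 2 + 1) = ∑ u ∈ B, (9 * (p : ℤ) ^ 2 + 1) := by
            rw [Finset.sum_const, nsmul_eq_mul]
        _ ≤ ∑ u ∈ B, 10 ^ 4 * ∑ t ∈ univ.filter (fun t => t ≠ s), (f t u) ^ 2 :=
            Finset.sum_le_sum h1
        _ ≤ ∑ u : V, 10 ^ 4 * ∑ t ∈ univ.filter (fun t => t ≠ s), (f t u) ^ 2 := by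
            refine Finset.sum_le_univ_sum_of_nonneg fun u => ?_
            exact mul_nonneg (by norm_num) (Finset.sum_nonneg fun i _ => sq_nonneg _)
        _ = 10 ^ 4 * ∑ u : V, ∑ t ∈ univ.filter (fun t => t ≠ s), (f t u) ^ 2 := by
            rw [Finset.mul_sum]
        _ ≤ _ := by
            refine mul_le_mul_of_nonneg_left ?_ (by norm_num)
            exact hvar
    by_contra hcon
    rw [not_le] at hcon
    have h6 : (3 * 10 ^ 10 + 1 : ℤ) ≤ B.card := by exact_mod_cast hcon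
    have hp : (0 : ℤ) ≤ (p : ℤ) ^ 2 := sq_nonneg _
    nlinarith
  · intro u hu t hts
    by_contra hcon
    rw [not_le] at hcon
    exact hu (mem_filter.2 ⟨mem_univ _, t, hts, hcon⟩)

end ZST
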