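import Pool.Agent.ZST.C2

/-!
ZST, row C3a: large components of the other colours.
-/

namespace ZST

open Finset Classical

variable {V : Type} [Fintype V] [DecidableEq V]

/-- cross neighbours lie in the component -/
private theorem c3a_sub (G : SimpleGraph V) (C : Finset V) {u x : V}
    (h : G.Reachable u x) : (univ.filter (fun y => G.Adj x y ∧ (y ∈ C ↔ x ∉ C))) ⊆ cp G u := by
  intro y hy
  unfold cp
  rw [mem_filter] at hy ⊢
  exact ⟨mem_univ _, h.trans hy.2.1.reachable⟩

/-- two adjacent vertices on different sides have disjoint cross neighbourhoods inside one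
component -/
private theorem c3a_add (G : SimpleGraph V) (C : Finset V) {u x : V} (hux : G.Adj u x)
    (hx : x ∈ C ↔ u ∉ C) : cd G C u + cd G C x ≤ (cp G u).card := by
  unfold cd
  rw [← card_union_of_disjoint]
  · refine card_le_card (union_subset ?_ ?_)
    · exact c3a_sub G C (SimpleGraph.Reachable.refl u)
    · exact c3a_sub G C hux.reachable
  · rw [disjoint_left]
    intro y hy hy'
    rw [mem_filter] at hy hy'
    have h1 := hy.2.2
    have h2 := hy'.2.2
    tauto

private theorem c3a_tg (C : Finset V) {u x : V} (hx : x ∈ C ↔ u ∉ C) :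
    tg C u + tg C x = Fintype.card V := by
  have hle : C.card ≤ Fintype.card V := card_le_univ C
  unfold tg
  by_cases hu : u ∈ C
  · have hx' : x ∉ C := fun h => (hx.1 h) hu
    rw [if_pos hu, if_neg hx']
    omega
  · have hx' : x ∈ C := hx.2 hu
    rw [if_neg hu, if_pos hx']
    omega

/-- ROW C3a. Uses C2. -/
theorem c_large {p c : ℕ} {Γ : Fin 4 → SimpleGraph V} (h : Four V p c Γ) (s : Fin 4) (v : V)
    (hC : 7 * p ≤ 10 * (cp (Γ s) v).card) :
    ∃ B : Finset V, B.card ≤ 3 * 10 ^ 10 ∧ ∀ u ∉ B, ∀ t, t ≠ s →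
      97 * p ≤ 100 * (cp (Γ t) u).card := by
  obtain ⟨B, hB, hbad⟩ := c_bad h s v
  refine ⟨B, hB, fun u hu t ht => ?_⟩
  have hp := h.hp
  have hn := h.hn
  have hk : (cp (Γ s) v).card ≤ p := h.hcomp s v
  set C := cp (Γ s) v with hCdef
  -- lower bounds for the cross degrees
  have hlow : ∀ y ∉ B, 100 * tg C y ≤ 300 * cd (Γ t) C y + 3 * p := by
    intro y hy
    have h1 := hbad y hy t ht
    have h2 := neg_abs_le (3 * (cd (Γ t) C y : ℤ) - tg C y)
    omega
  have htg : 7 * p ≤ 10 * tg C u := by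
    unfold tg
    split_ifs
    · omega
    · exact hC
  have hcd : B.card < cd (Γ t) C u := by
    have h1 := hlow u hu
    omega
  obtain ⟨x, hx, hxB⟩ := exists_mem_notMem_of_card_lt_card (show B.card <
    (univ.filter (fun x => (Γ t).Adj u x ∧ (x ∈ C ↔ u ∉ C))).card from hcd)
  rw [mem_filter] at hx
  have h1 := c3a_add (Γ t) C hx.2.1 hx.2.2
  have h2 := c3a_tg C hx.2.2
  have h3 := hlow u hu
  have h4 := hlow x hxB
  omega

end ZST
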