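import Pool.Agent.ZST.C2

/-!
ZST, row C3b: two large components of different colours meet in a large set.
-/

namespace ZST

open Finset Classical

variable {V : Type} [Fintype V] [DecidableEq V]

/-- a vertex outside the first component, inside the second and not bad -/
private theorem c3b_out {Γ : SimpleGraph V} {C : Finset V} {y w : V} (hw : w ∉ C)
    (hG : w ∈ cp Γ y) : cd Γ C w ≤ (cp Γ y ∩ C).card := by
  unfold cd
  refine card_le_card ?_
  intro x hx
  rw [mem_filter] at hx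
  unfold cp at hG ⊢
  rw [mem_filter] at hG
  rw [mem_inter, mem_filter]
  exact ⟨⟨mem_univ _, hG.2.trans hx.2.1.reachable⟩, hx.2.2.2 hw⟩

/-- ROW C3b. Uses C2. -/
theorem c_meet {p c : ℕ} {Γ : Fin 4 → SimpleGraph V} (h : Four V p c Γ) (s t : Fin 4) (v y : V)
    (hst : t ≠ s) (hC : 97 * p ≤ 100 * (cp (Γ s) v).card)
    (hD : 97 * p ≤ 100 * (cp (Γ t) y).card) :
    3 * p ≤ 10 * (cp (Γ t) y ∩ cp (Γ s) v).card := by
  obtain ⟨B, hB, hbad⟩ := c_bad h s v
  have hp := h.hp
  have hn := h.hn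
  have hk : (cp (Γ s) v).card ≤ p := h.hcomp s v
  set C := cp (Γ s) v with hCdef
  have key : ∀ w, w ∉ B → w ∉ C → w ∈ cp (Γ t) y →
      3 * p ≤ 10 * (cp (Γ t) y ∩ C).card := by
    intro w hwB hwC hwG
    have h1 := c3b_out hwC hwG
    have h2 := hbad w hwB t hst
    have h3 : tg C w = C.card := by unfold tg; rw [if_neg hwC]
    rw [h3] at h2
    have h4 := neg_abs_le (3 * (cd (Γ t) C w : ℤ) - (C.card : ℤ))
    have h5 : (97 * p : ℤ) ≤ 100 * (C.card : ℤ) := by exact_mod_cast hC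
    have h6 : (3 * p : ℤ) ≤ 10 * (cd (Γ t) C w : ℤ) := by linarith
    have h7 : 3 * p ≤ 10 * cd (Γ t) C w := by exact_mod_cast h6
    omega
  have hcard : B.card < (cp (Γ t) y).card := by omega
  obtain ⟨w, hwG, hwB⟩ := exists_mem_notMem_of_card_lt_card hcard
  by_cases hwC : w ∈ C
  · have h2 := hbad w hwB t hst
    have h3 : tg C w = Fintype.card V - C.card := by unfold tg; rw [if_pos hwC]
    have hle : C.card ≤ Fintype.card V := card_le_univ C
    rw [h3] at h2
    have h4 := neg_abs_le (3 * (cd (Γ t) C w : ℤ) - ((Fintype.card V - C.card : ℕ) : ℤ))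
    have h5 : (2 * p - 1 : ℤ) ≤ ((Fintype.card V - C.card : ℕ) : ℤ) := by omega
    have h6 : (6 * p : ℤ) ≤ 10 * (cd (Γ t) C w : ℤ) := by
      have : (10 : ℤ) ^ 13 ≤ p := by exact_mod_cast hp
      linarith
    have h7 : 6 * p ≤ 10 * cd (Γ t) C w := by exact_mod_cast h6
    have hc2 : B.card < cd (Γ t) C w := by omega
    unfold cd at hc2
    obtain ⟨x, hx, hxB⟩ := exists_mem_notMem_of_card_lt_card hc2
    rw [mem_filter] at hx
    have hxC : x ∉ C := fun hx' => (hx.2.2.1 hx') hwC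
    refine key x hxB hxC ?_
    unfold cp at hwG ⊢
    rw [mem_filter] at hwG ⊢
    exact ⟨mem_univ _, hwG.2.trans hx.2.1.reachable⟩
  · exact key w hwB hwC hwG

end ZST
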