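import Pool.Agent.ZST.C3a

/-!
# ZST, row C4: outside a small set all four components are large
-/

namespace ZST

open Finset Classical

variable {V : Type} [Fintype V] [DecidableEq V]

private lemma C4_nb_cp (Γ : SimpleGraph V) (v u : V) (h : Γ.Adj v u) : u ∈ cp Γ v := by
  unfold cp
  rw [Finset.mem_filter]
  exact ⟨Finset.mem_univ _, h.reachable⟩

private lemma C4_self_cp (Γ : SimpleGraph V) (v : V) : v ∈ cp Γ v := by
  unfold cp
  rw [Finset.mem_filter]
  exact ⟨Finset.mem_univ _, SimpleGraph.Reachable.refl _⟩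

private lemma C4_start {p c : ℕ} {Γ : Fin 4 → SimpleGraph V} (h : Four V p c Γ) (v : V) :
    ∃ s, 7 * p ≤ 10 * (cp (Γ s) v).card := by
  by_contra hcon
  push Not at hcon
  have hcov : (univ : Finset V) ⊆ ((univ : Finset (Fin 4)).biUnion (fun s => cp (Γ s) v)) ∪
      (univ.filter (fun u => u ≠ v ∧ ∀ t, ¬ (Γ t).Adj v u)) := by
    intro u _
    rw [Finset.mem_union, Finset.mem_biUnion, Finset.mem_filter]
    by_cases hu : u = v
    · left
      exact ⟨0, Finset.mem_univ _, by rw [hu]; exact C4_self_cp _ _⟩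
    · by_cases ht : ∃ t, (Γ t).Adj v u
      · left
        obtain ⟨t, ht⟩ := ht
        exact ⟨t, Finset.mem_univ _, C4_nb_cp _ _ _ ht⟩
      · right
        push Not at ht
        exact ⟨Finset.mem_univ _, hu, ht⟩
  have h1 := Finset.card_le_card hcov
  have h2 := Finset.card_union_le ((univ : Finset (Fin 4)).biUnion (fun s => cp (Γ s) v))
    (univ.filter (fun u => u ≠ v ∧ ∀ t, ¬ (Γ t).Adj v u))
  have h3 : ((univ : Finset (Fin 4)).biUnion (fun s => cp (Γ s) v)).card ≤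
      ∑ s : Fin 4, (cp (Γ s) v).card := Finset.card_biUnion_le
  have h4 := h.hexc v
  rw [Finset.card_univ] at h1
  rw [Fin.sum_univ_four] at h3
  have e0 := hcon 0
  have e1 := hcon 1
  have e2 := hcon 2
  have e3 := hcon 3
  have e4 := h.hp
  have e5 := h.hc
  have e6 := h.hn
  norm_num at e4 e5
  omega

private lemma C4_avoid {p c : ℕ} {Γ : Fin 4 → SimpleGraph V} (h : Four V p c Γ) (B : Finset V)
    (hB : B.card ≤ 3 * 10 ^ 10) : ∃ u, u ∉ B := by
  by_contra hcon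
  push Not at hcon
  have h1 : (univ : Finset V) ⊆ B := fun u _ => hcon u
  have h2 := Finset.card_le_card h1
  rw [Finset.card_univ] at h2
  have e4 := h.hp
  have e6 := h.hn
  norm_num at e4 hB
  omega

/-- ROW C4. Uses C3a (three times). -/
theorem c_good {p c : ℕ} {Γ : Fin 4 → SimpleGraph V} (h : Four V p c Γ) :
    ∃ B : Finset V, B.card ≤ 6 * 10 ^ 10 ∧ ∀ u ∉ B, ∀ t, 97 * p ≤ 100 * (cp (Γ t) u).card := by
  obtain ⟨v, _⟩ := C4_avoid h ∅ (by simp)
  obtain ⟨s, hs⟩ := C4_start h v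
  obtain ⟨B0, hB0, h0⟩ := c_large h s v hs
  obtain ⟨u1, hu1⟩ := C4_avoid h B0 hB0
  obtain ⟨t1, ht1⟩ : ∃ t1 : Fin 4, t1 ≠ s := exists_ne s
  have h1 := h0 u1 hu1 t1 ht1
  obtain ⟨B1, hB1, h1'⟩ := c_large h t1 u1 (by omega)
  obtain ⟨u2, hu2⟩ := C4_avoid h B1 hB1
  obtain ⟨t2, ht2⟩ : ∃ t2 : Fin 4, t2 ≠ t1 := exists_ne t1
  have h2 := h1' u2 hu2 t2 ht2
  obtain ⟨B2, hB2, h2'⟩ := c_large h t2 u2 (by omega)
  refine ⟨B1 ∪ B2, ?_, ?_⟩
  · have h3 := Finset.card_union_le B1 B2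
    norm_num at hB1 hB2 ⊢
    omega
  · intro u hu t
    rw [Finset.mem_union, not_or] at hu
    by_cases ht : t = t1
    · exact h2' u hu.2 t (by rw [ht]; exact fun hh => ht2 hh.symm)
    · exact h1' u hu.1 t ht

end ZST
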