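import Pool.Agent.ZST.C3b
import Pool.Agent.ZST.C4

/-! ZST row C5: all four components of every vertex are large. -/

namespace ZST

open Finset Classical

variable {V : Type} [Fintype V] [DecidableEq V]

private theorem C5_mem_cp (Γ : SimpleGraph V) (v u : V) : u ∈ cp Γ v ↔ Γ.Reachable v u := by
  unfold cp
  rw [mem_filter]
  simp only [mem_univ, true_and]

private theorem C5_cp_eq (Γ : SimpleGraph V) {v u : V} (h : u ∈ cp Γ v) : cp Γ u = cp Γ v := by
  rw [C5_mem_cp] at h
  ext x
  rw [C5_mem_cp, C5_mem_cp]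
  exact ⟨fun hx => h.trans hx, fun hx => h.symm.trans hx⟩

/-- ROW C5. Uses C3b, C4. -/
theorem c_all {p c : ℕ} {Γ : Fin 4 → SimpleGraph V} (h : Four V p c Γ) (v : V) (t : Fin 4) :
    97 * p ≤ 100 * (cp (Γ t) v).card := by
  obtain ⟨B, hB, hgood⟩ := c_good h
  have hp := h.hp
  have hc := h.hc
  have hn := h.hn
  have hdich : ∀ s : Fin 4, 97 * p ≤ 100 * (cp (Γ s) v).card ∨ (cp (Γ s) v).card ≤ 6 * 10 ^ 10 := by
    intro s
    by_cases hs : ∃ u ∈ cp (Γ s) v, u ∉ B
    · obtain ⟨u, hu, huB⟩ := hs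
      left
      rw [← C5_cp_eq (Γ s) hu]
      exact hgood u huB s
    · right
      push Not at hs
      exact (card_le_card hs).trans hB
  by_contra hsmall
  have ht0 : (cp (Γ t) v).card ≤ 6 * 10 ^ 10 := (hdich t).resolve_left hsmall
  set W : Finset V := univ.biUnion (fun s : Fin 4 => cp (Γ s) v) with hW
  have hcover : Fintype.card V ≤ c + 1 + W.card := by
    have hsub : (univ : Finset V) ⊆
        ((univ.filter (fun x => x ≠ v ∧ ∀ s, ¬ (Γ s).Adj v x)) ∪ {v}) ∪ W := by
      intro x _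
      by_cases hx : x = v
      · exact mem_union_left _ (mem_union_right _ (mem_singleton.2 hx))
      · by_cases hy : ∀ s, ¬ (Γ s).Adj v x
        · exact mem_union_left _ (mem_union_left _ (mem_filter.2 ⟨mem_univ _, hx, hy⟩))
        · push Not at hy
          obtain ⟨s, hs⟩ := hy
          exact mem_union_right _ (mem_biUnion.2 ⟨s, mem_univ _, (C5_mem_cp _ _ _).2 hs.reachable⟩)
    have h1 := card_le_card hsub
    have h2 := card_union_le ((univ.filter (fun x => x ≠ v ∧ ∀ s, ¬ (Γ s).Adj v x)) ∪ {v}) W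
    have h3 := card_union_le (univ.filter (fun x => x ≠ v ∧ ∀ s, ¬ (Γ s).Adj v x)) {v}
    have h4 := h.hexc v
    rw [card_singleton] at h3
    rw [card_univ] at h1
    omega
  by_cases hL : ∃ s, 97 * p ≤ 100 * (cp (Γ s) v).card
  · obtain ⟨s, hs⟩ := hL
    have hst : t ≠ s := by
      rintro rfl
      exact hsmall hs
    have hf : ∀ r : Fin 4, r ≠ s → 10 * (cp (Γ r) v \ cp (Γ s) v).card ≤ 7 * p := by
      intro r hr
      rcases hdich r with h1 | h1
      · have h2 := c_meet h s r v v hr hs h1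
        have h3 := h.hcomp r v
        have h4 := card_sdiff_add_card_inter (cp (Γ r) v) (cp (Γ s) v)
        omega
      · have h2 : (cp (Γ r) v \ cp (Γ s) v).card ≤ (cp (Γ r) v).card := card_le_card sdiff_subset
        omega
    have hsub : W ⊆ cp (Γ s) v ∪ (univ.erase s).biUnion (fun r => cp (Γ r) v \ cp (Γ s) v) := by
      intro x hx
      obtain ⟨r, _, hr⟩ := mem_biUnion.1 hx
      by_cases hxs : x ∈ cp (Γ s) v
      · exact mem_union_left _ hxs
      · have hrs : r ≠ s := by
          rintro rfl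
          exact hxs hr
        exact mem_union_right _ (mem_biUnion.2 ⟨r, mem_erase.2 ⟨hrs, mem_univ _⟩, mem_sdiff.2 ⟨hr, hxs⟩⟩)
    have h1 := (card_le_card hsub).trans (card_union_le _ _)
    have h2 : ((univ.erase s).biUnion (fun r => cp (Γ r) v \ cp (Γ s) v)).card ≤
        ∑ r ∈ univ.erase s, (cp (Γ r) v \ cp (Γ s) v).card := card_biUnion_le
    have h3 : ∑ r ∈ univ.erase s, (cp (Γ r) v \ cp (Γ s) v).card =
        (cp (Γ t) v \ cp (Γ s) v).card + ∑ r ∈ (univ.erase s).erase t, (cp (Γ r) v \ cp (Γ s) v).card :=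
      (add_sum_erase (univ.erase s) (fun r => (cp (Γ r) v \ cp (Γ s) v).card)
        (mem_erase.2 ⟨hst, mem_univ _⟩)).symm
    have h4 : (cp (Γ t) v \ cp (Γ s) v).card ≤ (cp (Γ t) v).card := card_le_card sdiff_subset
    have h5 : ∑ r ∈ (univ.erase s).erase t, 10 * (cp (Γ r) v \ cp (Γ s) v).card ≤
        ∑ r ∈ (univ.erase s).erase t, 7 * p :=
      sum_le_sum fun r hr => hf r (mem_erase.1 (mem_erase.1 hr).2).1
    have h6 : ((univ.erase s).erase t : Finset (Fin 4)).card = 2 := by
      rw [card_erase_of_mem (mem_erase.2 ⟨hst, mem_univ _⟩), card_erase_of_mem (mem_univ _)]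
      simp
    rw [← mul_sum, sum_const, h6, smul_eq_mul] at h5
    have h7 := h.hcomp s v
    omega
  · push Not at hL
    have h1 : W.card ≤ ∑ s : Fin 4, (cp (Γ s) v).card := card_biUnion_le
    have h2 : ∑ s : Fin 4, (cp (Γ s) v).card ≤ ∑ _s : Fin 4, 6 * 10 ^ 10 :=
      sum_le_sum fun s _ => (hdich s).resolve_left (not_le.2 (hL s))
    rw [sum_const, card_univ, Fintype.card_fin, smul_eq_mul] at h2
    omega

end ZST
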