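import Pool.Agent.ZST.Defs

/-! ZST row CDF: Cauchy-Davenport for a family. -/

namespace ZST

open Finset Classical

private theorem cdf_aux {p : ℕ} [hp : Fact p.Prime] {ι : Type} [DecidableEq ι]
    (B : ι → Finset (ZMod p)) (hne : ∀ j, (B j).Nonempty) (s : Finset ι) (hs : s.Nonempty) :
    ∃ C : Finset (ZMod p), C.Nonempty ∧ min p (∑ j ∈ s, (B j).card + 1 - s.card) ≤ C.card ∧
      ∀ t ∈ C, ∃ f : ι → ZMod p, (∀ j ∈ s, f j ∈ B j) ∧ ∑ j ∈ s, f j = t := by
  induction hs using Finset.Nonempty.cons_induction with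
  | singleton a =>
    refine ⟨B a, hne a, ?_, ?_⟩
    · rw [Finset.sum_singleton, Finset.card_singleton, Nat.add_sub_cancel]
      exact min_le_right _ _
    · intro t ht
      refine ⟨fun _ => t, ?_, ?_⟩
      · intro j hj
        rw [Finset.mem_singleton.mp hj]
        exact ht
      · rw [Finset.sum_singleton]
  | cons a s ha hs ih =>
    obtain ⟨C, hC, hcard, hrep⟩ := ih
    refine ⟨Finset.image₂ (fun x y => x + y) (B a) C, Finset.Nonempty.image₂ (hne a) hC, ?_, ?_⟩
    · have h := ZMod.cauchy_davenport hp.out (hne a) hC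
      have h2 : min p ((B a).card + C.card - 1)
          ≤ (Finset.image₂ (fun x y => x + y) (B a) C).card := h
      refine le_trans ?_ h2
      rw [Finset.sum_cons, Finset.card_cons]
      have h3 : s.card ≤ ∑ j ∈ s, (B j).card := by
        have := Finset.sum_le_sum (fun j (_ : j ∈ s) => Nat.succ_le_of_lt (hne j).card_pos)
        simpa using this
      have h4 := (hne a).card_pos
      have h5 := hC.card_pos
      have h6 := hp.out.pos
      omega
    · intro t ht
      obtain ⟨x, hx, y, hy, hxy⟩ := Finset.mem_image₂.mp ht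
      obtain ⟨f, hf, hsum⟩ := hrep y hy
      refine ⟨fun j => if j = a then x else f j, ?_, ?_⟩
      · intro j hj
        rcases Finset.mem_cons.mp hj with h | h
        · subst h
          simpa using hx
        · have hne' : j ≠ a := fun h' => ha (h' ▸ h)
          simpa [hne'] using hf j h
      · rw [Finset.sum_cons, if_pos rfl, ← hxy, ← hsum]
        congr 1
        refine Finset.sum_congr rfl fun j hj => ?_
        have hne' : j ≠ a := fun h' => ha (h' ▸ hj)
        simp [hne']

/-- ROW CDF. Cauchy-Davenport for a family. -/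
theorem cd_family {p : ℕ} [Fact p.Prime] (l : ℕ) (hl : 1 ≤ l) (B : Fin l → Finset (ZMod p))
    (hne : ∀ j, (B j).Nonempty) (hs : l + p - 1 ≤ ∑ j, (B j).card) (t : ZMod p) :
    ∃ f : Fin l → ZMod p, (∀ j, f j ∈ B j) ∧ ∑ j, f j = t := by
  have : NeZero l := ⟨by omega⟩
  obtain ⟨C, _, hcard, hrep⟩ := cdf_aux B hne Finset.univ Finset.univ_nonempty
  have hpos := (Fact.out : p.Prime).pos
  rw [Finset.card_univ, Fintype.card_fin] at hcard
  have h1 : p ≤ C.card := by omega
  have h2 : C = Finset.univ := by
    apply Finset.eq_univ_of_card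
    rw [ZMod.card p]
    have := Finset.card_le_univ C
    rw [ZMod.card p] at this
    omega
  obtain ⟨f, hf, hsum⟩ := hrep t (h2 ▸ Finset.mem_univ t)
  exact ⟨f, fun j => hf j (Finset.mem_univ j), hsum⟩

end ZST
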