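import Pool.Agent.ZST.Defs

/-! Row CONVA: a subgraph of the complete graph which is a tree gives a `TR`. -/

namespace ZST

open Finset Classical

private theorem conva_edge_ncard {m n : ℕ} {T : (⊤ : SimpleGraph (Fin n)).Subgraph}
    (hT : IsCopy m n T) : T.edgeSet.ncard = m := by
  obtain ⟨h1, h2⟩ := hT
  have h3 := h1.card_edgeFinset
  have h4 : T.edgeSet.ncard = T.coe.edgeSet.ncard := by
    rw [← SimpleGraph.Subgraph.image_coe_edgeSet_coe T]
    exact Set.ncard_image_of_injective _ (Sym2.map.injective Subtype.val_injective)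
  have h5 : T.coe.edgeSet.ncard = T.coe.edgeFinset.card := by
    rw [Set.ncard_eq_toFinset_card', SimpleGraph.edgeFinset]
  have h6 : Fintype.card T.verts = m + 1 := by
    rw [← h2, Set.ncard_eq_toFinset_card', Set.toFinset_card]
  omega

private theorem conva_step {m n : ℕ} {T : (⊤ : SimpleGraph (Fin n)).Subgraph}
    (hT : IsCopy m n T) {S : Finset (Fin n)} (hS : (S : Set (Fin n)) ⊆ T.verts)
    (hne : S.Nonempty) (hc : S.card < m + 1) : ∃ u ∈ S, ∃ v, v ∉ S ∧ T.Adj u v := by
  obtain ⟨a, ha⟩ := hne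
  have h1 : ∃ b ∈ T.verts, b ∉ S := by
    by_contra hcon
    push Not at hcon
    have h2 : T.verts.ncard ≤ (S : Set (Fin n)).ncard :=
      Set.ncard_le_ncard (fun x hx => hcon x hx) S.finite_toSet
    rw [hT.2, Set.ncard_coe_finset] at h2
    omega
  obtain ⟨b, hb, hbS⟩ := h1
  obtain ⟨p⟩ := hT.1.1.preconnected ⟨a, hS ha⟩ ⟨b, hb⟩
  obtain ⟨d, -, hd1, hd2⟩ := p.exists_boundary_dart {x | x.1 ∈ S} ha hbS
  exact ⟨d.fst.1, hd1, d.snd.1, hd2, d.adj⟩

/-- ROW CONVA. A subgraph of `K_n` which is a tree gives a `TR`. -/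
theorem tr_of_copy {m n : ℕ} {G : Type} [AddCommGroup G] {T : (⊤ : SimpleGraph (Fin n)).Subgraph}
    (hT : IsCopy m n T) (W : Sym2 (Fin n) → G) (E : Fin n → Fin n → Prop)
    (hE : ∀ u v, T.Adj u v → E u v) :
    ∃ S : Finset (Fin n), (S : Set (Fin n)) = T.verts ∧ S.card = m + 1 ∧
      TR E (fun u v => W s(u, v)) S (∑ᶠ e ∈ T.edgeSet, W e) := by
  have key : ∀ k, k ≤ m → ∃ S : Finset (Fin n), (S : Set (Fin n)) ⊆ T.verts ∧ S.card = k + 1 ∧
      ∃ F : Finset (Sym2 (Fin n)), (F : Set (Sym2 (Fin n))) ⊆ T.edgeSet ∧ F.card = k ∧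
        (∀ e ∈ F, ∀ x ∈ e, x ∈ S) ∧ TR E (fun u v => W s(u, v)) S (∑ e ∈ F, W e) := by
    intro k
    induction k with
    | zero =>
      intro _
      have h1 : T.verts.Nonempty := by
        rw [← Set.ncard_pos, hT.2]
        omega
      obtain ⟨a, ha⟩ := h1
      refine ⟨{a}, by simpa using ha, by simp, ∅, by simp, by simp, by simp, ?_⟩
      rw [Finset.sum_empty]
      exact TR.single a
    | succ k ih =>
      intro hk
      obtain ⟨S, hS, hc, F, hF, hFc, hFS, hTR⟩ := ih (by omega)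
      obtain ⟨u, hu, v, hv, huv⟩ := conva_step hT hS (Finset.card_pos.1 (by omega)) (by omega)
      have hnot : s(u, v) ∉ F := fun h => hv (hFS _ h v (by simp))
      refine ⟨insert v S, ?_, ?_, insert s(u, v) F, ?_, ?_, ?_, ?_⟩
      · rw [Finset.coe_insert]
        exact Set.insert_subset (T.edge_vert huv.symm) hS
      · rw [Finset.card_insert_of_notMem hv, hc]
      · rw [Finset.coe_insert]
        exact Set.insert_subset huv hF
      · rw [Finset.card_insert_of_notMem hnot, hFc]
      · intro e he x hx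
        rw [Finset.mem_insert] at he ⊢
        rcases he with rfl | he
        · rw [Sym2.mem_iff] at hx
          rcases hx with rfl | rfl
          · exact Or.inr hu
          · exact Or.inl rfl
        · exact Or.inr (hFS e he x hx)
      · rw [Finset.sum_insert hnot, add_comm]
        exact TR.add hTR hu hv (hE u v huv)
  obtain ⟨S, hS, hc, F, hF, hFc, -, hTR⟩ := key m le_rfl
  have h1 : (S : Set (Fin n)) = T.verts := by
    refine Set.eq_of_subset_of_ncard_le hS ?_ (Set.toFinite _)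
    rw [hT.2, Set.ncard_coe_finset, hc]
  have h2 : (F : Set (Sym2 (Fin n))) = T.edgeSet := by
    refine Set.eq_of_subset_of_ncard_le hF ?_ (Set.toFinite _)
    rw [conva_edge_ncard hT, Set.ncard_coe_finset, hFc]
  refine ⟨S, h1, hc, ?_⟩
  rw [← h2, finsum_mem_coe_finset]
  exact hTR

end ZST
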