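import Pool.Agent.ZST.DICH

/-!
# ZST, row DICHA: the dichotomy for an edge
-/

namespace ZST

open Finset Classical

variable {V : Type} [Fintype V] [DecidableEq V]

private theorem dicha_mem_zlab {G : Type} {H : SimpleGraph V} {w : V → V → G} {K : Finset V}
    {x : V} {b : G} : x ∈ zlab H w K b ↔ x ∉ K ∧ ∃ a ∈ lab H w K x, a ≠ b := by
  unfold zlab
  rw [Finset.mem_filter]
  exact ⟨fun h => h.2, fun h => ⟨Finset.mem_univ _, h⟩⟩

private theorem dicha_mem_nlab {G : Type} {H : SimpleGraph V} {w : V → V → G} {K : Finset V}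
    {x : V} {a : G} : x ∈ nlab H w K a ↔ x ∉ K ∧ a ∈ lab H w K x := by
  unfold nlab
  rw [Finset.mem_filter]
  exact ⟨fun h => h.2, fun h => ⟨Finset.mem_univ _, h⟩⟩

/-- ROW DICHA. Uses DICH with `K = {u, v}`. -/
theorem dich_two {p : ℕ} [Fact p.Prime] {H : SimpleGraph V} {w : V → V → ZMod p}
    (hz : ZF p H w) (u v : V) (huv : H.Adj u v) (hN : 2 * p - 2 ≤ (outN H {u, v}).card) :
    ∃ b, (zlab H w {u, v} b).card + 2 ≤ p := by
  have hp2 : 2 ≤ p := (Fact.out : p.Prime).two_le
  have hne : u ≠ v := huv.ne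
  have hcard : ({u, v} : Finset V).card = 2 := Finset.card_pair hne
  have hK : Core H w {u, v} := by
    refine ⟨0 + w u v, ?_⟩
    have h1 := TR.add (TR.single (E := H.Adj) (w := w) u) (Finset.mem_singleton_self u)
      (v := v) (by rw [Finset.mem_singleton]; exact hne.symm) huv
    have h2 : insert v {u} = ({u, v} : Finset V) := Finset.pair_comm v u
    rwa [h2] at h1
  obtain ⟨b, hb, hsum⟩ := dich hz {u, v} hK (by rw [hcard]; exact hp2) (by rw [hcard]; omega)
  rw [hcard] at hb hsum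
  refine ⟨b, ?_⟩
  have h3 : ∑ a : ZMod p, min (p + 1 - 2) (nlab H w {u, v} a).card =
      min (p + 1 - 2) (nlab H w {u, v} b).card +
        ∑ a ∈ Finset.univ.erase b, min (p + 1 - 2) (nlab H w {u, v} a).card :=
    (Finset.add_sum_erase _ _ (Finset.mem_univ b)).symm
  rw [h3, min_eq_left hb] at hsum
  have h4 : ∀ a ∈ Finset.univ.erase b,
      min (p + 1 - 2) (nlab H w {u, v} a).card = (nlab H w {u, v} a).card := by
    intro a ha
    have h5 := Finset.single_le_sum
      (f := fun a : ZMod p => min (p + 1 - 2) (nlab H w {u, v} a).card)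
      (fun i _ => Nat.zero_le _) ha
    rcases le_total (p + 1 - 2) (nlab H w {u, v} a).card with h6 | h6
    · exfalso
      rw [min_eq_left h6] at h5
      omega
    · exact min_eq_right h6
  rw [Finset.sum_congr rfl h4] at hsum
  have h7 : (zlab H w {u, v} b).card ≤ ∑ a ∈ Finset.univ.erase b, (nlab H w {u, v} a).card := by
    refine le_trans (Finset.card_le_card ?_) Finset.card_biUnion_le
    intro x hx
    obtain ⟨hxK, a, ha, hab⟩ := dicha_mem_zlab.1 hx
    rw [Finset.mem_biUnion]
    exact ⟨a, Finset.mem_erase.2 ⟨hab, Finset.mem_univ _⟩, dicha_mem_nlab.2 ⟨hxK, ha⟩⟩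
  omega

end ZST
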