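import Pool.Agent.ZST.Defs
import Pool.Agent.ZST.COMPLE
import Pool.Agent.ZST.DICHA

/-! Row DIAM: the diameter is at most two. -/

namespace ZST

open Finset Classical

variable {V : Type} [Fintype V] [DecidableEq V]

/-- ROW DIAM. Uses DICHA and COMPLE for the complement. -/
theorem diam_two {p : ℕ} [Fact p.Prime] {H : SimpleGraph V} {w' : V → V → ZMod p}
    (hz' : ZF p Hᶜ w') (hn : 3 * p - 1 ≤ Fintype.card V)
    (u v : V) (huv : u ≠ v) : H.Adj u v ∨ ∃ z, H.Adj u z ∧ H.Adj z v := by
  by_contra hcon
  push Not at hcon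
  obtain ⟨hnadj, hno⟩ := hcon
  have hp : 2 ≤ p := (Fact.out : p.Prime).two_le
  have hadj : Hᶜ.Adj u v := (SimpleGraph.compl_adj H u v).2 ⟨huv, hnadj⟩
  have hout : outN Hᶜ {u, v} = univ \ {u, v} := by
    ext x
    simp only [outN, mem_filter, mem_univ, true_and, mem_sdiff]
    constructor
    · rintro ⟨h, -⟩
      exact h
    · intro h
      refine ⟨h, ?_⟩
      simp only [mem_insert, mem_singleton, not_or] at h
      by_cases h1 : H.Adj u x
      · refine ⟨v, by simp, (SimpleGraph.compl_adj H v x).2 ⟨Ne.symm h.2, fun h2 => ?_⟩⟩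
        exact hno x h1 h2.symm
      · exact ⟨u, by simp, (SimpleGraph.compl_adj H u x).2 ⟨Ne.symm h.1, h1⟩⟩
  have hcard2 : ({u, v} : Finset V).card = 2 := card_pair huv
  have hcout : (outN Hᶜ {u, v}).card + 2 = Fintype.card V := by
    rw [hout, card_sdiff_of_subset (subset_univ _), hcard2, card_univ]
    have : 2 ≤ Fintype.card V := by
      rw [← hcard2, ← card_univ]
      exact card_le_card (subset_univ _)
    omega
  obtain ⟨b, hb⟩ := dich_two hz' u v hadj (by omega)
  set P : Finset V := outN Hᶜ {u, v} \ zlab Hᶜ w' {u, v} b with hP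
  have hPc : (outN Hᶜ {u, v}).card ≤ P.card + (zlab Hᶜ w' {u, v} b).card := by
    have := le_card_sdiff (zlab Hᶜ w' {u, v} b) (outN Hᶜ {u, v})
    rw [← hP] at this
    omega
  have hself : ∀ y, y ∈ comp Hᶜ w' b y := by
    intro y
    simp only [comp, cp, mem_filter, mem_univ, true_and]
    exact SimpleGraph.Reachable.refl _
  have hPsub : P ∪ {u, v} ⊆ comp Hᶜ w' b u ∪ comp Hᶜ w' b v := by
    intro x hx
    rcases mem_union.1 hx with hx | hx
    · rw [hP, mem_sdiff] at hx
      obtain ⟨h1, h2⟩ := hx
      simp only [outN, mem_filter, mem_univ, true_and] at h1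
      obtain ⟨h1, k, hk, hkx⟩ := h1
      have hlab : w' k x = b := by
        by_contra hne
        refine h2 ?_
        simp only [zlab, mem_filter, mem_univ, true_and]
        refine ⟨h1, w' k x, ?_, hne⟩
        simp only [lab, mem_image, mem_filter]
        exact ⟨k, ⟨hk, hkx⟩, rfl⟩
      have hxk : x ∈ comp Hᶜ w' b k := by
        simp only [comp, cp, mem_filter, mem_univ, true_and]
        refine SimpleGraph.Adj.reachable ?_
        exact ⟨hkx, hlab, by rw [← hz'.1 k x]; exact hlab⟩
      simp only [mem_insert, mem_singleton] at hk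
      rcases hk with rfl | rfl
      · exact mem_union_left _ hxk
      · exact mem_union_right _ hxk
    · simp only [mem_insert, mem_singleton] at hx
      rcases hx with rfl | rfl
      · exact mem_union_left _ (hself _)
      · exact mem_union_right _ (hself _)
  have hdisj : Disjoint P {u, v} := by
    rw [Finset.disjoint_left]
    intro x hx hx2
    rw [hP, mem_sdiff, hout, mem_sdiff] at hx
    exact hx.1.2 hx2
  have h1 := card_le_card hPsub
  rw [card_union_of_disjoint hdisj, hcard2] at h1
  have h2 := (card_union_le (comp Hᶜ w' b u) (comp Hᶜ w' b v))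
  have h3 := comp_card_le hz' b u
  have h4 := comp_card_le hz' b v
  omega

end ZST
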