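import Pool.Agent.ZST.Defs
import Pool.Agent.ZST.CDF

/-! Row ROBIN (helper44): round robin over the sorted labels. -/

namespace ZST

open Finset Classical

/-- ROW ROBIN. Uses CDF. -/
theorem robin {p : ℕ} [Fact p.Prime] {W : Type} [DecidableEq W] (X : Finset W)
    (a : W → ZMod p) (l : ℕ) (hl : 1 ≤ l)
    (hX : p + l - 1 ≤ X.card) (hf : ∀ c, (X.filter (fun x => a x = c)).card < l) (t : ZMod p) :
    ∃ L ⊆ X, L.card = l ∧ ∑ x ∈ L, a x = t := by
  have hp : 0 < p := (Fact.out : p.Prime).pos
  haveI : NeZero p := ⟨hp.ne'⟩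
  obtain ⟨X', hX', hc⟩ := Finset.exists_subset_card_eq hX
  obtain ⟨N, hN⟩ : ∃ N, N = p + l - 1 := ⟨_, rfl⟩
  rw [← hN] at hc
  have hlN : l ≤ N := by omega
  let e0 : Fin N ≃ X' := (Finset.equivFinOfCardEq hc).symm
  let f0 : Fin N → ℕ := fun i => (a (e0 i)).val
  have hmono : Monotone (f0 ∘ Tuple.sort f0) := Tuple.monotone_sort f0
  let h : Fin N → W := fun i => (e0 (Tuple.sort f0 i) : W)
  have hinj : Function.Injective h := fun i j hij =>
    (Tuple.sort f0).injective (e0.injective (Subtype.ext hij))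
  have hmem : ∀ i, h i ∈ X := fun i => hX' (e0 (Tuple.sort f0 i)).2
  have hclose : ∀ i j : Fin N, i < j → a (h i) = a (h j) → (j : ℕ) < i + l := by
    intro i j hij hab
    by_contra hcon
    have hcon' : (i : ℕ) + l ≤ j := not_lt.1 hcon
    have hall : ∀ k : Fin N, i ≤ k → k ≤ j → a (h k) = a (h i) := by
      intro k h1 h2
      have m1 : (a (h i)).val ≤ (a (h k)).val := hmono h1
      have m2 : (a (h k)).val ≤ (a (h j)).val := hmono h2
      apply ZMod.val_injective p
      rw [← hab] at m2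
      exact le_antisymm m2 m1
    have h1 : (Finset.Icc i j).card ≤ (X.filter (fun x => a x = a (h i))).card := by
      apply Finset.card_le_card_of_injOn h
      · intro k hk
        have hk' := Finset.mem_Icc.1 (Finset.mem_coe.1 hk)
        exact Finset.mem_coe.2 (Finset.mem_filter.2 ⟨hmem k, hall k hk'.1 hk'.2⟩)
      · exact hinj.injOn
    have h2 : (Finset.Icc i j).card = (j : ℕ) + 1 - i := Fin.card_Icc i j
    have h3 := hf (a (h i))
    omega
  let c : Fin N → Fin l := fun i => ⟨(i : ℕ) % l, Nat.mod_lt _ hl⟩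
  have hkey : ∀ i j : Fin N, i < j → c i = c j → a (h i) ≠ a (h j) := by
    intro i j hij hcc hab
    have h1 := hclose i j hij hab
    have h2 : (i : ℕ) % l = (j : ℕ) % l := congrArg Fin.val hcc
    have h3 : (i : ℕ) < j := hij
    have h4 : l ∣ (j : ℕ) - i := (Nat.modEq_iff_dvd' h3.le).1 h2
    have h5 := Nat.le_of_dvd (by omega) h4
    omega
  have hBinj : ∀ j, Set.InjOn (fun i => a (h i)) (↑(univ.filter (fun i => c i = j)) : Set (Fin N)) := by
    intro j i hi i' hi' hab
    have e1 : c i = j := (Finset.mem_filter.1 (Finset.mem_coe.1 hi)).2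
    have e2 : c i' = j := (Finset.mem_filter.1 (Finset.mem_coe.1 hi')).2
    rcases lt_trichotomy i i' with h1 | h1 | h1
    · exact absurd hab (hkey i i' h1 (e1.trans e2.symm))
    · exact h1
    · exact absurd hab.symm (hkey i' i h1 (e2.trans e1.symm))
  have hBcard : ∀ j, ((univ.filter (fun i => c i = j)).image (fun i => a (h i))).card =
      (univ.filter (fun i => c i = j)).card := fun j => Finset.card_image_of_injOn (hBinj j)
  have hsum : ∑ j, ((univ.filter (fun i => c i = j)).image (fun i => a (h i))).card = N := by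
    rw [Finset.sum_congr rfl (fun j _ => hBcard j)]
    have h1 := Finset.card_eq_sum_card_fiberwise (f := c) (s := (univ : Finset (Fin N)))
      (t := (univ : Finset (Fin l))) (fun i _ => Finset.mem_coe.2 (Finset.mem_univ _))
    rw [← h1, Finset.card_univ, Fintype.card_fin]
  obtain ⟨g, hg, hgt⟩ := cd_family l hl
    (fun j => (univ.filter (fun i => c i = j)).image (fun i => a (h i))) (by
      intro j
      refine ⟨a (h ⟨j, lt_of_lt_of_le j.2 hlN⟩), Finset.mem_image.2
        ⟨⟨j, lt_of_lt_of_le j.2 hlN⟩, Finset.mem_filter.2 ⟨Finset.mem_univ _, ?_⟩, rfl⟩⟩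
      apply Fin.ext
      exact Nat.mod_eq_of_lt j.2) (by rw [hsum]; omega) t
  have hex : ∀ j, ∃ i, c i = j ∧ a (h i) = g j := by
    intro j
    obtain ⟨i, hi, hi2⟩ := Finset.mem_image.1 (hg j)
    exact ⟨i, (Finset.mem_filter.1 hi).2, hi2⟩
  choose idx hidx1 hidx2 using hex
  have hii : Function.Injective (fun j => h (idx j)) := by
    intro j j' hjj
    have := hinj hjj
    rw [← hidx1 j, ← hidx1 j', this]
  refine ⟨univ.image (fun j => h (idx j)), ?_, ?_, ?_⟩
  · intro x hx
    obtain ⟨j, _, rfl⟩ := Finset.mem_image.1 hx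
    exact hmem _
  · rw [Finset.card_image_of_injective _ hii, Finset.card_univ, Fintype.card_fin]
  · rw [Finset.sum_image (fun j _ j' _ hjj => hii hjj), Finset.sum_congr rfl (fun j _ => hidx2 j)]
    exact hgt

end ZST
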