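import Pool.Agent.ZST.NEST
import Pool.Agent.ZST.ROBIN

/-!
# ZST, row DICH: the dichotomy at a connected core
-/

namespace ZST

open Finset Classical

variable {V : Type} [Fintype V] [DecidableEq V]

omit [Fintype V] [DecidableEq V] in
private theorem dich_mem_lab {G : Type} {H : SimpleGraph V} {w : V → V → G} {K : Finset V}
    {x : V} {a : G} : a ∈ lab H w K x ↔ ∃ k ∈ K, H.Adj k x ∧ w k x = a := by
  unfold lab
  rw [Finset.mem_image]
  constructor
  · rintro ⟨k, hk, h⟩
    rw [Finset.mem_filter] at hk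
    exact ⟨k, hk.1, hk.2, h⟩
  · rintro ⟨k, hk, h1, h2⟩
    exact ⟨k, Finset.mem_filter.2 ⟨hk, h1⟩, h2⟩

private theorem dich_mem_nlab {G : Type} {H : SimpleGraph V} {w : V → V → G} {K : Finset V}
    {x : V} {a : G} : x ∈ nlab H w K a ↔ x ∉ K ∧ a ∈ lab H w K x := by
  unfold nlab
  rw [Finset.mem_filter]
  exact ⟨fun h => h.2, fun h => ⟨Finset.mem_univ _, h⟩⟩

private theorem dich_mem_outN {H : SimpleGraph V} {K : Finset V} {x : V} :
    x ∈ outN H K ↔ x ∉ K ∧ ∃ k ∈ K, H.Adj k x := by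
  unfold outN
  rw [Finset.mem_filter]
  exact ⟨fun h => h.2, fun h => ⟨Finset.mem_univ _, h⟩⟩

private theorem dich_fan {G : Type} [AddCommGroup G] {E : V → V → Prop} {w : V → V → G}
    {K : Finset V} {s : G} (h : TR E w K s) (f : V → V) (L : Finset V) :
    Disjoint K L → (∀ x ∈ L, f x ∈ K ∧ E (f x) x) →
      TR E w (K ∪ L) (s + ∑ x ∈ L, w (f x) x) := by
  induction L using Finset.induction_on with
  | empty =>
    intro _ _
    rw [Finset.union_empty, Finset.sum_empty, add_zero]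
    exact h
  | insert a L ha ih =>
    intro hd hf
    have hd' : Disjoint K L := hd.mono_right (Finset.subset_insert _ _)
    have haK : a ∉ K := fun h' => Finset.disjoint_left.1 hd h' (Finset.mem_insert_self _ _)
    have h1 := TR.add (ih hd' fun x hx => hf x (Finset.mem_insert_of_mem hx))
      (Finset.mem_union_left _ (hf a (Finset.mem_insert_self _ _)).1)
      (v := a) (by rw [Finset.mem_union]; rintro (h' | h'); exacts [haK h', ha h'])
      (hf a (Finset.mem_insert_self _ _)).2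
    rw [Finset.union_insert, Finset.sum_insert ha, add_comm (w (f a) a), ← add_assoc]
    exact h1

private theorem dich_no_leaves {p : ℕ} {H : SimpleGraph V} {w : V → V → ZMod p}
    (hz : ZF p H w) {K : Finset V} {s : ZMod p} (hT : TR H.Adj w K s) (hk : K.card ≤ p)
    (L : Finset V) (hL : L ⊆ outN H K) (hc : L.card = p + 1 - K.card) (f : V → ZMod p)
    (hf : ∀ x ∈ L, f x ∈ lab H w K x) (hs : ∑ x ∈ L, f x = -s) : False := by
  have h1 : ∀ x : V, ∃ k : V, x ∈ L → (k ∈ K ∧ H.Adj k x ∧ w k x = f x) := by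
    intro x
    by_cases hx : x ∈ L
    · obtain ⟨k, hk1, hk2, hk3⟩ := dich_mem_lab.1 (hf x hx)
      exact ⟨k, fun _ => ⟨hk1, hk2, hk3⟩⟩
    · exact ⟨x, fun h => absurd h hx⟩
  choose g hg using h1
  have hd : Disjoint K L := by
    rw [Finset.disjoint_left]
    intro x hxK hxL
    exact (dich_mem_outN.1 (hL hxL)).1 hxK
  have h3 := dich_fan hT g L hd (fun x hx => ⟨(hg x hx).1, (hg x hx).2.1⟩)
  have h4 : ∑ x ∈ L, w (g x) x = -s := by
    rw [← hs]
    exact Finset.sum_congr rfl fun x hx => (hg x hx).2.2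
  rw [h4, add_neg_cancel] at h3
  refine hz.2 (K ∪ L) ?_ h3
  rw [Finset.card_union_of_disjoint hd, hc]
  omega

private theorem dich_filter {p : ℕ} {H : SimpleGraph V} {w : V → V → ZMod p}
    {K : Finset V} (a : ZMod p) (x : V) :
    (x ∈ outN H K ∧ a ∈ lab H w K x) ↔ x ∈ nlab H w K a := by
  rw [dich_mem_nlab, dich_mem_outN]
  constructor
  · rintro ⟨⟨h1, -⟩, h2⟩
    exact ⟨h1, h2⟩
  · rintro ⟨h1, h2⟩
    obtain ⟨k, hk1, hk2, -⟩ := dich_mem_lab.1 h2
    exact ⟨⟨h1, k, hk1, hk2⟩, h2⟩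

/-- ROW DICH. Uses FAN, NEST, ROBIN. -/
theorem dich {p : ℕ} [Fact p.Prime] {H : SimpleGraph V} {w : V → V → ZMod p}
    (hz : ZF p H w) (K : Finset V) (hK : Core H w K) (hk : K.card ≤ p)
    (hN : 2 * p ≤ (outN H K).card + K.card) :
    ∃ b, p + 1 - K.card ≤ (nlab H w K b).card ∧
      ∑ a : ZMod p, min (p + 1 - K.card) (nlab H w K a).card + K.card + 1 ≤ 2 * p := by
  obtain ⟨s, hT⟩ := hK
  set l := p + 1 - K.card with hl
  have hl1 : 1 ≤ l := by omega
  have hlK : l + K.card = p + 1 := by omega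
  -- a selection of labels
  have hsel : ∀ x : V, ∃ a : ZMod p, x ∈ outN H K → a ∈ lab H w K x := by
    intro x
    by_cases hx : x ∈ outN H K
    · obtain ⟨-, k, hkK, hadj⟩ := dich_mem_outN.1 hx
      exact ⟨w k x, fun _ => dich_mem_lab.2 ⟨k, hkK, hadj, rfl⟩⟩
    · exact ⟨0, fun h => absurd h hx⟩
  choose f hf using hsel
  have hb : ∃ b, l ≤ (nlab H w K b).card := by
    by_contra hcon
    push Not at hcon
    have hr : ∀ c, ((outN H K).filter (fun x => f x = c)).card < l := by
      intro c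
      refine lt_of_le_of_lt (Finset.card_le_card ?_) (hcon c)
      intro x hx
      rw [Finset.mem_filter] at hx
      rw [← dich_filter]
      exact ⟨hx.1, by rw [← hx.2]; exact hf x hx.1⟩
    obtain ⟨L, hL, hLc, hLs⟩ := robin (outN H K) f l hl1 (by omega) hr (-s)
    exact dich_no_leaves hz hT hk L hL hLc f (fun x hx => hf x (hL hx)) hLs
  obtain ⟨b, hb⟩ := hb
  refine ⟨b, hb, ?_⟩
  by_contra hcon
  have hcard : ∀ a : ZMod p, ((outN H K).filter (fun x => a ∈ lab H w K x)).card =
      (nlab H w K a).card := by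
    intro a
    refine congrArg Finset.card (Finset.ext fun x => ?_)
    rw [Finset.mem_filter]
    exact dich_filter a x
  have hsum : l + p - 1 ≤ ∑ a : ZMod p,
      min l ((outN H K).filter (fun x => a ∈ lab H w K x)).card := by
    have : ∑ a : ZMod p, min l ((outN H K).filter (fun x => a ∈ lab H w K x)).card =
        ∑ a : ZMod p, min l (nlab H w K a).card :=
      Finset.sum_congr rfl fun a _ => by rw [hcard a]
    rw [this]
    omega
  obtain ⟨L, hL, hLc, g, hg, hgs⟩ := nest (outN H K) (lab H w K) l hl1 b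
    (by rw [hcard b]; exact hb) hsum (-s)
  exact dich_no_leaves hz hT hk L hL hLc g hg hgs

end ZST
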