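import Pool.Agent.ZST.DICHB0
import Pool.Agent.ZST.DICH

/-!
# ZST row DICHB: a core with many labels has two main labels
-/

namespace ZST

open Finset Classical

variable {V : Type} [Fintype V] [DecidableEq V]

/-- ROW DICHB. Uses DICH. -/
theorem dich_big {p : ℕ} [Fact p.Prime] {H : SimpleGraph V} {w : V → V → ZMod p}
    (hz : ZF p H w) (K : Finset V) (hK : Core H w K) (hk : 2 * K.card + 4 < p)
    (hN : 2 * p ≤ (outN H K).card) (hzl : ∀ b, p - 1 ≤ (zlab H w K b).card) :
    ∃ b b', b ≠ b' ∧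
      (univ.filter (fun x => x ∉ K ∧ ∃ a ∈ lab H w K x, a ≠ b ∧ a ≠ b')).card ≤ K.card :=
  DICHB_of K hk (dich hz K hK (by omega) (by omega)) hzl

end ZST
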