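import Pool.Agent.ZST.Defs

/-!
# ZST row DICHB (first part): a core with many labels has two main labels
-/

namespace ZST

open Finset Classical

variable {V : Type} [Fintype V] [DecidableEq V]

private theorem DICHB_cover {p : ℕ} [Fact p.Prime] {H : SimpleGraph V} {w : V → V → ZMod p}
    (K F : Finset V) (B : Finset (ZMod p))
    (hF : ∀ x ∈ F, x ∉ K ∧ ∃ a ∈ lab H w K x, a ∈ B) :
    F.card ≤ ∑ a ∈ B, (nlab H w K a).card := by
  have h : F ⊆ B.biUnion (fun a => nlab H w K a) := by
    intro x hx
    obtain ⟨hxK, a, ha, haB⟩ := hF x hx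
    rw [mem_biUnion]
    refine ⟨a, haB, ?_⟩
    simp only [nlab, mem_filter, mem_univ, true_and]
    exact ⟨hxK, ha⟩
  exact (card_le_card h).trans card_biUnion_le

/-- Row DICHB, with the conclusion of the row DICH as a hypothesis. -/
theorem DICHB_of {p : ℕ} [Fact p.Prime] {H : SimpleGraph V} {w : V → V → ZMod p}
    (K : Finset V) (hk : 2 * K.card + 4 < p)
    (hD : ∃ b, p + 1 - K.card ≤ (nlab H w K b).card ∧
      ∑ a : ZMod p, min (p + 1 - K.card) (nlab H w K a).card + K.card + 1 ≤ 2 * p)
    (hzl : ∀ b, p - 1 ≤ (zlab H w K b).card) :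
    ∃ b b', b ≠ b' ∧
      (univ.filter (fun x => x ∉ K ∧ ∃ a ∈ lab H w K x, a ≠ b ∧ a ≠ b')).card ≤ K.card := by
  obtain ⟨b, hb, hsum⟩ := hD
  rw [← Finset.add_sum_erase univ _ (mem_univ b)] at hsum
  by_cases hex : ∃ b', b' ≠ b ∧ p + 1 - K.card ≤ (nlab H w K b').card
  · obtain ⟨b', hbb, hb'⟩ := hex
    refine ⟨b, b', hbb.symm, ?_⟩
    have hm : b' ∈ univ.erase b := mem_erase.2 ⟨hbb, mem_univ _⟩
    rw [← Finset.add_sum_erase _ _ hm] at hsum
    simp only [min_eq_left hb, min_eq_left hb'] at hsum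
    have h2 : ∀ a ∈ (univ.erase b).erase b',
        (nlab H w K a).card = min (p + 1 - K.card) (nlab H w K a).card := by
      intro a ha
      have h3 : min (p + 1 - K.card) (nlab H w K a).card ≤
          ∑ a ∈ (univ.erase b).erase b', min (p + 1 - K.card) (nlab H w K a).card :=
        Finset.single_le_sum
          (f := fun a : ZMod p => min (p + 1 - K.card) (nlab H w K a).card)
          (fun _ _ => Nat.zero_le _) ha
      omega
    refine (DICHB_cover (H := H) (w := w) K _ ((univ.erase b).erase b') ?_).trans ?_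
    · intro x hx
      simp only [mem_filter, mem_univ, true_and] at hx
      obtain ⟨hxK, a, ha, h1, h2⟩ := hx
      exact ⟨hxK, a, ha, mem_erase.2 ⟨h2, mem_erase.2 ⟨h1, mem_univ _⟩⟩⟩
    · rw [Finset.sum_congr rfl h2]
      omega
  · exfalso
    push Not at hex
    simp only [min_eq_left hb] at hsum
    have h2 : ∀ a ∈ univ.erase b,
        (nlab H w K a).card = min (p + 1 - K.card) (nlab H w K a).card := by
      intro a ha
      have := hex a (mem_erase.1 ha).1
      omega
    have h4 : (zlab H w K b).card ≤ ∑ a ∈ univ.erase b, (nlab H w K a).card := by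
      refine DICHB_cover (H := H) (w := w) K _ (univ.erase b) ?_
      intro x hx
      simp only [zlab, mem_filter, mem_univ, true_and] at hx
      obtain ⟨hxK, a, ha, h1⟩ := hx
      exact ⟨hxK, a, ha, mem_erase.2 ⟨h1, mem_univ _⟩⟩
    rw [Finset.sum_congr rfl h2] at h4
    have h5 := hzl b
    omega

end ZST
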