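import Mathlib

/-!
# ZST: definitions for MP_8ab2db_co (zero-sum trees, two copies of Z_m)
-/

namespace ZST

open Finset Classical

/-- `TR E w S s`: `S` is the vertex set of a tree all of whose edges satisfy `E`, of total
weight `s` (trees are built by adding leaves). -/
inductive TR {V : Type} {G : Type} [AddCommGroup G] [DecidableEq V]
    (E : V → V → Prop) (w : V → V → G) : Finset V → G → Prop
  | single (v : V) : TR E w {v} 0
  | add {S : Finset V} {s : G} {u v : V} (h : TR E w S s) (hu : u ∈ S) (hv : v ∉ S)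
      (he : E u v) : TR E w (insert v S) (s + w u v)

section

variable {V : Type} [Fintype V] [DecidableEq V] {G : Type}

/-- neighbours of `v` -/
noncomputable def nb (H : SimpleGraph V) (v : V) : Finset V :=
  univ.filter (fun x => H.Adj v x)

/-- labels seen by `x` towards the core `K` -/
noncomputable def lab (H : SimpleGraph V) (w : V → V → G) (K : Finset V) (x : V) : Finset G :=
  (K.filter (fun k => H.Adj k x)).image (fun k => w k x)

/-- outside vertices joined to `K` by an edge labelled `a` -/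
noncomputable def nlab (H : SimpleGraph V) (w : V → V → G) (K : Finset V) (a : G) : Finset V :=
  univ.filter (fun x => x ∉ K ∧ a ∈ lab H w K x)

/-- outside vertices joined to `K` by an edge with a label different from `b` -/
noncomputable def zlab (H : SimpleGraph V) (w : V → V → G) (K : Finset V) (b : G) : Finset V :=
  univ.filter (fun x => x ∉ K ∧ ∃ a ∈ lab H w K x, a ≠ b)

/-- outside vertices joined to `K` -/
noncomputable def outN (H : SimpleGraph V) (K : Finset V) : Finset V :=
  univ.filter (fun x => x ∉ K ∧ ∃ k ∈ K, H.Adj k x)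

/-- outside vertices not joined to `K` -/
noncomputable def und (H : SimpleGraph V) (K : Finset V) : Finset V :=
  univ.filter (fun x => x ∉ K ∧ ∀ k ∈ K, ¬ H.Adj k x)

/-- the graph of the edges labelled `b` -/
def lg (H : SimpleGraph V) (w : V → V → G) (b : G) : SimpleGraph V where
  Adj u v := H.Adj u v ∧ w u v = b ∧ w v u = b
  symm := ⟨fun _ _ h => ⟨h.1.symm, h.2.2, h.2.1⟩⟩
  loopless := ⟨fun _ h => H.loopless.irrefl _ h.1⟩

/-- the component of `v` in the graph `Γ` -/
noncomputable def cp (Γ : SimpleGraph V) (v : V) : Finset V :=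
  univ.filter (fun u => Γ.Reachable v u)

/-- the component of `v` in the graph of the edges labelled `b` -/
noncomputable def comp (H : SimpleGraph V) (w : V → V → G) (b : G) (v : V) : Finset V :=
  cp (lg H w b) v

/-- `K` is a connected core -/
def Core [AddCommGroup G] (H : SimpleGraph V) (w : V → V → G) (K : Finset V) : Prop :=
  ∃ s, TR H.Adj w K s

/-- symmetric labels, and no zero-sum tree with `p` edges -/
def ZF (p : ℕ) (H : SimpleGraph V) (w : V → V → ZMod p) : Prop :=
  (∀ u v, w u v = w v u) ∧ ∀ S : Finset V, S.card = p + 1 → ¬ TR H.Adj w S 0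

end

/-! ## The final statement -/

/-- `T` is a copy in `K_n` of a member of `τ_{m+1}`: a tree on `m+1` vertices. -/
def IsCopy (m n : ℕ) (T : (⊤ : SimpleGraph (Fin n)).Subgraph) : Prop :=
  T.coe.IsTree ∧ T.verts.ncard = m + 1

/-- every `k`-colouring of `E(K_n)` has a monochromatic member of `τ_{m+1}` -/
def HasMono (m k n : ℕ) : Prop :=
  ∀ c : Sym2 (Fin n) → Fin k, ∃ T, IsCopy m n T ∧ ∃ i, ∀ e ∈ T.edgeSet, c e = i

/-- `T` is zero-sum for the colouring `c` by two copies of `Z_m` -/
def ZeroSum {m n : ℕ} (c : Sym2 (Fin n) → ZMod m ⊕ ZMod m)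
    (T : (⊤ : SimpleGraph (Fin n)).Subgraph) : Prop :=
  ((∀ e ∈ T.edgeSet, ∃ a, c e = Sum.inl a) ∧
      ∑ᶠ e ∈ T.edgeSet, Sum.elim id (fun _ => (0 : ZMod m)) (c e) = 0) ∨
  ((∀ e ∈ T.edgeSet, ∃ a, c e = Sum.inr a) ∧
      ∑ᶠ e ∈ T.edgeSet, Sum.elim (fun _ => (0 : ZMod m)) id (c e) = 0)

/-- every `(Z_m ∪ Z_m)`-colouring of `E(K_n)` has a zero-sum member of `τ_{m+1}` -/
def HasZero (m n : ℕ) : Prop :=
  ∀ c : Sym2 (Fin n) → ZMod m ⊕ ZMod m, ∃ T, IsCopy m n T ∧ ZeroSum c T

end ZST
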