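import Pool.Agent.ZST.Defs

/-!
# ZST: definitions for the four-colour part, and the edges between components
-/

namespace ZST

open Finset Classical

variable {V : Type} [Fintype V] [DecidableEq V]

/-- cross degree of `u` in `Γ` for the cut `(C, V - C)` -/
noncomputable def cd (Γ : SimpleGraph V) (C : Finset V) (u : V) : ℕ :=
  (univ.filter (fun x => Γ.Adj u x ∧ (x ∈ C ↔ u ∉ C))).card

/-- the target size of the cut at `u` -/
noncomputable def tg (C : Finset V) (u : V) : ℕ := if u ∈ C then Fintype.card V - C.card else C.card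

/-- the four-colour hypotheses -/
structure Four (V : Type) [Fintype V] [DecidableEq V] (p c : ℕ) (Γ : Fin 4 → SimpleGraph V) :
    Prop where
  hp : 10 ^ 13 ≤ p
  hc : c ≤ 10 ^ 6
  hn : 3 * p - 1 ≤ Fintype.card V
  hn' : Fintype.card V ≤ 4 * p
  hdisj : ∀ s t u v, s ≠ t → (Γ s).Adj u v → ¬ (Γ t).Adj u v
  hexc : ∀ u, (univ.filter (fun v => v ≠ u ∧ ∀ t, ¬ (Γ t).Adj u v)).card ≤ c
  hcomp : ∀ t v, (cp (Γ t) v).card ≤ p

/-- the edges of `H` between different `b`-components -/
def btw {G : Type} (H : SimpleGraph V) (w : V → V → G) (b : G) : SimpleGraph V where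
  Adj u v := H.Adj u v ∧ ¬ (lg H w b).Reachable u v
  symm := ⟨fun _ _ h => ⟨h.1.symm, fun h' => h.2 h'.symm⟩⟩
  loopless := ⟨fun _ h => H.loopless.irrefl _ h.1⟩

end ZST
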