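import Pool.Agent.ZST.Defs

/-! Row EASY of board zst_modules (MP_8ab2db_co). -/

namespace ZST

open Finset Classical

private theorem easy_edges {m n : ℕ} {T : (⊤ : SimpleGraph (Fin n)).Subgraph}
    (hT : IsCopy m n T) : T.edgeSet.ncard ≤ m := by
  obtain ⟨h1, h2⟩ := hT
  haveI : Fintype T.verts := Fintype.ofFinite _
  haveI : Fintype T.coe.edgeSet := Fintype.ofFinite _
  have h3 := h1.card_edgeFinset
  have h4 : Fintype.card T.verts = m + 1 := by
    rw [← h2, Set.ncard_eq_toFinset_card', Set.toFinset_card]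
  have h5 : T.edgeSet.ncard ≤ T.coe.edgeSet.ncard := by
    rw [← SimpleGraph.Subgraph.image_coe_edgeSet_coe]
    exact Set.ncard_image_le (Set.toFinite _)
  have h6 : T.coe.edgeSet.ncard = T.coe.edgeFinset.card := by
    rw [Set.ncard_eq_toFinset_card']
    rfl
  omega

private theorem easy_split {m : ℕ} (hm : 1 ≤ m) {A : Type} [Finite A] (E : Set A)
    (hE : E.ncard ≤ m) (P : A → Prop) [DecidablePred P]
    (h : ∑ᶠ e ∈ E, (if P e then (1 : ZMod m) else 0) = 0) :
    (∀ e ∈ E, ¬ P e) ∨ (∀ e ∈ E, P e) := by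
  have hf : E.Finite := Set.toFinite E
  rw [finsum_mem_eq_finite_toFinset_sum _ hf, Finset.sum_boole] at h
  have h1 : m ∣ (hf.toFinset.filter P).card := (ZMod.natCast_eq_zero_iff _ _).1 h
  have h2 : (hf.toFinset.filter P).card ≤ hf.toFinset.card := Finset.card_filter_le _ _
  have h3 : hf.toFinset.card = E.ncard := (Set.ncard_eq_toFinset_card E hf).symm
  by_cases h0 : (hf.toFinset.filter P).card = 0
  · left
    intro e he hP
    rw [Finset.card_eq_zero] at h0
    have : e ∈ hf.toFinset.filter P := Finset.mem_filter.2 ⟨hf.mem_toFinset.2 he, hP⟩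
    rw [h0] at this
    exact absurd this (Finset.notMem_empty _)
  · right
    intro e he
    have h4 : m ≤ (hf.toFinset.filter P).card := Nat.le_of_dvd (Nat.pos_of_ne_zero h0) h1
    have h5 : hf.toFinset.filter P = hf.toFinset :=
      Finset.eq_of_subset_of_card_le (Finset.filter_subset _ _) (by omega)
    have : e ∈ hf.toFinset.filter P := by
      rw [h5]
      exact hf.mem_toFinset.2 he
    exact (Finset.mem_filter.1 this).2

/-- ROW EASY. The trivial inequality `R(τ,4) ≤ R(τ, Z_m ∪ Z_m)`. -/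
theorem hasMono_of_hasZero {m n : ℕ} (hm : 1 ≤ m) (h : HasZero m n) : HasMono m 4 n := by
  intro c
  let c' : Sym2 (Fin n) → ZMod m ⊕ ZMod m := fun e =>
    if c e = 0 then Sum.inl 0 else if c e = 1 then Sum.inl 1 else
      if c e = 2 then Sum.inr 0 else Sum.inr 1
  have hc' : ∀ e, c' e = if c e = 0 then Sum.inl 0 else if c e = 1 then Sum.inl 1 else
      if c e = 2 then Sum.inr 0 else Sum.inr 1 := fun e => rfl
  have h4 : ∀ x : Fin 4, x = 0 ∨ x = 1 ∨ x = 2 ∨ x = 3 := by decide
  obtain ⟨T, hT, hz⟩ := h c'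
  refine ⟨T, hT, ?_⟩
  have hE := easy_edges hT
  rcases hz with ⟨hk, hs⟩ | ⟨hk, hs⟩
  · have h01 : ∀ e ∈ T.edgeSet, c e = 0 ∨ c e = 1 := by
      intro e he
      obtain ⟨a, ha⟩ := hk e he
      rw [hc'] at ha
      rcases h4 (c e) with h | h | h | h
      · exact Or.inl h
      · exact Or.inr h
      · rw [h] at ha
        simp at ha
      · rw [h] at ha
        simp at ha
    have hsum : ∑ᶠ e ∈ T.edgeSet, (if c e = 1 then (1 : ZMod m) else 0) = 0 := by
      refine Eq.trans (finsum_mem_congr rfl (fun e he => ?_)) hs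
      rw [hc']
      rcases h01 e he with h | h
      · simp [h]
      · simp [h]
    rcases easy_split hm T.edgeSet hE (fun e => c e = 1) hsum with h | h
    · exact ⟨0, fun e he => (h01 e he).resolve_right (h e he)⟩
    · exact ⟨1, h⟩
  · have h23 : ∀ e ∈ T.edgeSet, c e = 2 ∨ c e = 3 := by
      intro e he
      obtain ⟨a, ha⟩ := hk e he
      rw [hc'] at ha
      rcases h4 (c e) with h | h | h | h
      · rw [h] at ha
        simp at ha
      · rw [h] at ha
        simp at ha
      · exact Or.inl h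
      · exact Or.inr h
    have hsum : ∑ᶠ e ∈ T.edgeSet, (if c e = 3 then (1 : ZMod m) else 0) = 0 := by
      refine Eq.trans (finsum_mem_congr rfl (fun e he => ?_)) hs
      rw [hc']
      rcases h23 e he with h | h
      · simp [h]
      · simp [h]
    rcases easy_split hm T.edgeSet hE (fun e => c e = 3) hsum with h | h
    · exact ⟨2, fun e he => (h23 e he).resolve_right (h e he)⟩
    · exact ⟨3, h⟩

end ZST
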