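import Pool.Agent.ZST.Defs

/-!
# ZST, row ROOT: a tree with `p` edges has a zero-sum subtree with at least one edge
-/

namespace ZST

open Finset Classical
open scoped Pointwise

variable {V : Type} [Fintype V] [DecidableEq V]

section aux

variable {U : Type} [DecidableEq U]

/-- joining two disjoint trees by an edge -/
private theorem root_join {G : Type} [AddCommGroup G] {E : U → U → Prop} {w : U → U → G}
    (hE : ∀ u v, E u v → E v u) (hsym : ∀ u v, w u v = w v u) {T : Finset U} {b : G}
    (hT : TR E w T b) :
    ∀ (S : Finset U) (a : G) (r c : U), TR E w S a → r ∈ S → c ∈ T → Disjoint S T → E r c →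
      TR E w (S ∪ T) (a + w r c + b) := by
  induction hT with
  | single v =>
    intro S a r c hS hr hc hd he
    rw [mem_singleton] at hc
    subst hc
    rw [disjoint_singleton_right] at hd
    have h := TR.add hS hr hd he
    have e : S ∪ {c} = insert c S := by
      ext x; simp only [mem_union, mem_singleton, mem_insert]; tauto
    rw [e, add_zero]
    exact h
  | @add T b u v hT hu hv he ih =>
    intro S a r c hS hr hc hd her
    have hd1 : Disjoint S T := hd.mono_right (subset_insert v T)
    have hvS : v ∉ S := fun h => (disjoint_left.1 hd h) (mem_insert_self v T)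
    rcases eq_or_ne c v with hcv | hcv
    · subst hcv
      have h1 := TR.add hS hr hvS her
      have hd2 : Disjoint (insert c S) T := by
        rw [disjoint_insert_left]; exact ⟨hv, hd1⟩
      have h2 := ih (insert c S) (a + w r c) c u h1 (mem_insert_self c S) hu hd2 (hE _ _ he)
      have e : insert c S ∪ T = S ∪ insert c T := by
        ext x; simp only [mem_union, mem_insert]; tauto
      have e2 : a + w r c + w c u + b = a + w r c + (b + w u c) := by
        rw [hsym c u]; abel
      rw [e, e2] at h2
      exact h2
    · have hcT : c ∈ T := by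
        rcases mem_insert.1 hc with h | h
        · exact absurd h hcv
        · exact h
      have h1 := ih S a r c hS hr hcT hd1 her
      have hv2 : v ∉ S ∪ T := by
        rw [mem_union]; tauto
      have h2 := TR.add h1 (mem_union_right S hu) hv2 he
      have e : insert v (S ∪ T) = S ∪ insert v T := by
        ext x; simp only [mem_union, mem_insert]; tauto
      have e2 : a + w r c + b + w u v = a + w r c + (b + w u v) := by abel
      rw [e, e2] at h2
      exact h2

/-- rooted trees -/
private inductive RootT (E : U → U → Prop) : U → Finset U → Prop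
  | single (v : U) : RootT E v {v}
  | join {r c : U} {S T : Finset U} (h1 : RootT E r S) (h2 : RootT E c T) (hd : Disjoint S T)
      (he : E r c) : RootT E r (S ∪ T)

private theorem root_mem {E : U → U → Prop} {r : U} {S : Finset U} (h : RootT E r S) : r ∈ S := by
  induction h with
  | single v => exact mem_singleton_self v
  | join h1 h2 hd he ih1 ih2 => exact mem_union_left _ ih1

private theorem root_leaf {E : U → U → Prop} {r : U} {S : Finset U} (h : RootT E r S)
    {u v : U} (he : E u v) : u ∈ S → v ∉ S → RootT E r (insert v S) := by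
  induction h with
  | single x =>
    intro hu hv
    rw [mem_singleton] at hu hv
    subst hu
    have h := RootT.join (RootT.single (E := E) u) (RootT.single (E := E) v)
      (by rw [disjoint_singleton_right, mem_singleton]; exact hv) he
    have e : ({u} ∪ {v} : Finset U) = insert v {u} := by
      ext x; simp only [mem_union, mem_singleton, mem_insert]; tauto
    rw [← e]
    exact h
  | @join r c S T h1 h2 hd her ih1 ih2 =>
    intro hu hv
    rw [mem_union, not_or] at hv
    by_cases huS : u ∈ S
    · have h := RootT.join (ih1 huS hv.1) h2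
        (by rw [disjoint_insert_left]; exact ⟨hv.2, hd⟩) her
      have e : insert v S ∪ T = insert v (S ∪ T) := by
        ext x; simp only [mem_union, mem_insert]; tauto
      rw [← e]; exact h
    · have huT : u ∈ T := by
        rcases mem_union.1 hu with h | h
        · exact absurd h huS
        · exact h
      have h := RootT.join h1 (ih2 huT hv.2)
        (by rw [disjoint_insert_right]; exact ⟨hv.1, hd⟩) her
      have e : S ∪ insert v T = insert v (S ∪ T) := by
        ext x; simp only [mem_union, mem_insert]; tauto
      rw [← e]; exact h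

private theorem root_of_tr {G : Type} [AddCommGroup G] {E : U → U → Prop} {w : U → U → G}
    (hE : ∀ u v, E u v → E v u) {S : Finset U} {s : G} (h : TR E w S s) :
    ∀ r ∈ S, RootT E r S := by
  induction h with
  | single v =>
    intro r hr
    rw [mem_singleton] at hr
    subst hr
    exact RootT.single r
  | @add S s u v hS hu hv he ih =>
    intro r hr
    rcases eq_or_ne r v with hrv | hrv
    · subst hrv
      have h := RootT.join (RootT.single (E := E) r) (ih u hu)
        (by rw [disjoint_singleton_left]; exact hv) (hE _ _ he)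
      have e : ({r} ∪ S : Finset U) = insert r S := by
        ext x; simp only [mem_union, mem_singleton, mem_insert]
      rw [← e]; exact h
    · have hrS : r ∈ S := by
        rcases mem_insert.1 hr with h | h
        · exact absurd h hrv
        · exact h
      exact root_leaf (ih r hrS) he hu hv

variable {p : ℕ} [Fact p.Prime]

/-- the sums of the subtrees of `S` which contain `r` -/
private noncomputable def rootA (E : U → U → Prop) (w : U → U → ZMod p) (r : U) (S : Finset U) :
    Finset (ZMod p) :=
  univ.filter (fun a => ∃ S' ⊆ S, r ∈ S' ∧ TR E w S' a)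

private theorem root_memA {E : U → U → Prop} {w : U → U → ZMod p} {r : U} {S : Finset U}
    {a : ZMod p} : a ∈ rootA E w r S ↔ ∃ S' ⊆ S, r ∈ S' ∧ TR E w S' a := by
  unfold rootA
  rw [mem_filter]
  exact ⟨fun h => h.2, fun h => ⟨mem_univ _, h⟩⟩

private theorem root_zero {E : U → U → Prop} {w : U → U → ZMod p} {r : U} {S : Finset U}
    (hr : r ∈ S) : (0 : ZMod p) ∈ rootA E w r S :=
  root_memA.2 ⟨{r}, by simpa using hr, mem_singleton_self r, TR.single r⟩

private theorem root_comb {E : U → U → Prop} {w : U → U → ZMod p}
    (hE : ∀ u v, E u v → E v u) (hsym : ∀ u v, w u v = w v u) {r c : U} {S T : Finset U}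
    (hd : Disjoint S T) (he : E r c) {a b : ZMod p} (ha : a ∈ rootA E w r S)
    (hb : b ∈ rootA E w c T) :
    ∃ S' ⊆ S ∪ T, r ∈ S' ∧ 2 ≤ S'.card ∧ TR E w S' (a + w r c + b) := by
  obtain ⟨S1, hS1, hr1, hT1⟩ := root_memA.1 ha
  obtain ⟨S2, hS2, hr2, hT2⟩ := root_memA.1 hb
  have hd' : Disjoint S1 S2 := hd.mono hS1 hS2
  refine ⟨S1 ∪ S2, union_subset_union hS1 hS2, mem_union_left _ hr1, ?_,
    root_join hE hsym hT2 S1 a r c hT1 hr1 hr2 hd' he⟩
  rw [card_union_of_disjoint hd']
  have h1 : 0 < S1.card := card_pos.2 ⟨r, hr1⟩
  have h2 : 0 < S2.card := card_pos.2 ⟨c, hr2⟩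
  omega

private theorem root_main {E : U → U → Prop} {w : U → U → ZMod p}
    (hE : ∀ u v, E u v → E v u) (hsym : ∀ u v, w u v = w v u) {r : U} {S : Finset U}
    (h : RootT E r S) : (∃ S' ⊆ S, 2 ≤ S'.card ∧ TR E w S' 0) ∨
      min p S.card ≤ (rootA E w r S).card := by
  induction h with
  | single v =>
    right
    rw [card_singleton]
    have : 0 < (rootA E w v {v}).card :=
      card_pos.2 ⟨0, root_zero (mem_singleton_self v)⟩
    exact le_trans (min_le_right _ _) this
  | @join r c S T h1 h2 hd he ih1 ih2 =>
    rcases ih1 with ⟨S', hS', h⟩ | hA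
    · exact Or.inl ⟨S', hS'.trans subset_union_left, h⟩
    rcases ih2 with ⟨S', hS', h⟩ | hB
    · exact Or.inl ⟨S', hS'.trans subset_union_right, h⟩
    by_cases h0 : -(w r c) ∈ rootA E w c T
    · left
      obtain ⟨S', hS', _, hc', ht⟩ := root_comb hE hsym hd he (root_zero (root_mem h1)) h0
      refine ⟨S', hS', hc', ?_⟩
      have e : (0 : ZMod p) + w r c + -(w r c) = 0 := by ring
      rw [e] at ht
      exact ht
    · right
      set A := rootA E w r S with hAdef
      set B := rootA E w c T with hBdef
      set X := insert (0 : ZMod p) (B.image (fun b => w r c + b)) with hX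
      have hXc : X.card = B.card + 1 := by
        rw [hX, card_insert_of_notMem, card_image_of_injective _ (add_right_injective _)]
        rw [mem_image]
        rintro ⟨b, hb, hb0⟩
        exact h0 (by rwa [← eq_neg_of_add_eq_zero_right hb0])
      have hAne : A.Nonempty := ⟨0, root_zero (root_mem h1)⟩
      have hXne : X.Nonempty := ⟨0, mem_insert_self _ _⟩
      have hcd := ZMod.cauchy_davenport (Fact.out : p.Prime) hAne hXne
      have hsub : A + X ⊆ rootA E w r (S ∪ T) := by
        intro z hz
        obtain ⟨a, ha, x, hx, rfl⟩ := mem_add.1 hz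
        rw [hX, mem_insert, mem_image] at hx
        rcases hx with rfl | ⟨b, hb, rfl⟩
        · obtain ⟨S1, hS1, hr1, hT1⟩ := root_memA.1 ha
          rw [add_zero]
          exact root_memA.2 ⟨S1, hS1.trans subset_union_left, hr1, hT1⟩
        · obtain ⟨S', hS', hr', _, ht⟩ := root_comb hE hsym hd he ha hb
          rw [← add_assoc]
          exact root_memA.2 ⟨S', hS', hr', ht⟩
      refine le_trans ?_ (le_trans hcd (card_le_card hsub))
      rw [hXc, card_union_of_disjoint hd]
      have hp := (Fact.out : p.Prime).pos
      have e1 : A.card + (B.card + 1) - 1 = A.card + B.card := by omega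
      rw [e1]
      have h3 : 0 < A.card := hAne.card_pos
      have h4 : 0 < B.card := card_pos.2 ⟨0, root_zero (root_mem h2)⟩
      rw [min_le_iff] at hA hB
      rw [le_min_iff]
      refine ⟨min_le_left _ _, ?_⟩
      rcases hA with hA | hA
      · exact le_trans (min_le_left _ _) (by omega)
      rcases hB with hB | hB
      · exact le_trans (min_le_left _ _) (by omega)
      exact le_trans (min_le_right _ _) (by omega)

private theorem root_final {E : U → U → Prop} {w : U → U → ZMod p}
    (hE : ∀ u v, E u v → E v u) (hsym : ∀ u v, w u v = w v u) {r : U} {S : Finset U}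
    (h : RootT E r S) (hc : S.card = p + 1) : ∃ S' ⊆ S, 2 ≤ S'.card ∧ TR E w S' 0 := by
  have hp := (Fact.out : p.Prime).pos
  cases h with
  | single v => rw [card_singleton] at hc; omega
  | @join _ c S T h1 h2 hd he =>
    rcases root_main hE hsym h1 with ⟨S', hS', h⟩ | hA
    · exact ⟨S', hS'.trans subset_union_left, h⟩
    rcases root_main hE hsym h2 with ⟨S', hS', h⟩ | hB
    · exact ⟨S', hS'.trans subset_union_right, h⟩
    set A := rootA E w r S with hAdef
    set B := rootA E w c T with hBdef
    rw [card_union_of_disjoint hd] at hc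
    have hS0 : 0 < S.card := card_pos.2 ⟨r, root_mem h1⟩
    have hT0 : 0 < T.card := card_pos.2 ⟨c, root_mem h2⟩
    have hA' : S.card ≤ A.card := by
      rw [min_eq_right (by omega)] at hA; exact hA
    have hB' : T.card ≤ B.card := by
      rw [min_eq_right (by omega)] at hB; exact hB
    set X := B.image (fun b => w r c + b) with hX
    have hXc : X.card = B.card := card_image_of_injective _ (add_right_injective _)
    have hAne : A.Nonempty := ⟨0, root_zero (root_mem h1)⟩
    have hBne : B.Nonempty := ⟨0, root_zero (root_mem h2)⟩
    have hcd := ZMod.cauchy_davenport (Fact.out : p.Prime) hAne (hBne.image (fun b => w r c + b))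
    rw [← hX, hXc] at hcd
    have hfull : (A + X).card = Fintype.card (ZMod p) := by
      refine le_antisymm (card_le_univ _) ?_
      rw [ZMod.card]
      refine le_trans ?_ hcd
      rw [le_min_iff]
      exact ⟨le_rfl, by omega⟩
    have h0 : (0 : ZMod p) ∈ A + X := by
      rw [(card_eq_iff_eq_univ _).1 hfull]; exact mem_univ _
    obtain ⟨a, ha, x, hx, hax⟩ := mem_add.1 h0
    rw [hX, mem_image] at hx
    obtain ⟨b, hb, rfl⟩ := hx
    obtain ⟨S', hS', _, hc', ht⟩ := root_comb hE hsym hd he ha hb
    refine ⟨S', hS', hc', ?_⟩
    rw [add_assoc, hax] at ht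
    exact ht

end aux

/-- ROW ROOT. A tree with `p` edges has a zero-sum subtree with at least one edge. -/
theorem zero_subtree {p : ℕ} [Fact p.Prime] {H : SimpleGraph V} {w : V → V → ZMod p}
    (hsym : ∀ u v, w u v = w v u) {S : Finset V} {s : ZMod p} (hT : TR H.Adj w S s)
    (hc : S.card = p + 1) : ∃ S' ⊆ S, 2 ≤ S'.card ∧ TR H.Adj w S' 0 := by
  have hE : ∀ u v, H.Adj u v → H.Adj v u := fun u v h => h.symm
  have hne : S.Nonempty := by
    rw [← card_pos, hc]; omega
  obtain ⟨r, hr⟩ := hne
  exact root_final hE hsym (root_of_tr hE hT r hr) hc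

end ZST
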