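import Pool.Agent.ZST.Defs

/-!
# ZST, row LOW: the blow-up of the affine plane of order 3
-/

namespace ZST

open Finset Classical

/-- the class of a cell in the parallel class `i` -/
private def lowL (i : Fin 4) (c : ZMod 3 × ZMod 3) : ZMod 3 :=
  if i = 0 then c.1 else if i = 1 then c.2 else if i = 2 then c.1 + c.2 else c.1 + 2 * c.2

/-- the direction of the line through two cells -/
private def lowCol (c d : ZMod 3 × ZMod 3) : Fin 4 :=
  if c.1 = d.1 then 0 else if c.2 = d.2 then 1 else if c.1 + c.2 = d.1 + d.2 then 2 else 3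

private lemma lowCol_symm : ∀ c d : ZMod 3 × ZMod 3, lowCol c d = lowCol d c := by decide

private lemma lowCol_line : ∀ c d : ZMod 3 × ZMod 3,
    lowL (lowCol c d) c = lowL (lowCol c d) d := by decide

/-- the nine cells -/
private def lowNine (j : ℕ) : ZMod 3 × ZMod 3 := ((j / 3 : ℕ), (j % 3 : ℕ))

/-- the cap -/
private def lowCap (j : ℕ) : ZMod 3 × ZMod 3 := ((j / 2 : ℕ), (j % 2 : ℕ))

/-- the cell of a vertex -/
private def lowCell (q v : ℕ) : ZMod 3 × ZMod 3 :=
  if v < 9 * q then lowNine (v % 9) else lowCap (v - 9 * q)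

private lemma low_nine_count : ∀ i : Fin 4, ∀ a : ZMod 3,
    Nat.count (fun k => lowL i (lowNine k) = a) 9 = 3 := by decide

private lemma low_cap_count : ∀ i : Fin 4, ∀ a : ZMod 3,
    Nat.count (fun k => lowL i (lowCap k) = a) 4 ≤ 2 := by decide

private lemma low_count_congr (P Q : ℕ → Prop) [DecidablePred P] [DecidablePred Q] (n : ℕ)
    (h : ∀ k < n, P k ↔ Q k) : Nat.count P n = Nat.count Q n := by
  rw [Nat.count_eq_card_filter_range, Nat.count_eq_card_filter_range]
  congr 1
  apply Finset.filter_congr
  intro x hx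
  exact h x (Finset.mem_range.mp hx)

private lemma low_periodic (i : Fin 4) (a : ZMod 3) (q : ℕ) :
    Nat.count (fun v => lowL i (lowNine (v % 9)) = a) (9 * q) = 3 * q := by
  induction q with
  | zero => simp
  | succ q ih =>
    rw [show 9 * (q + 1) = 9 * q + 9 by ring, Nat.count_add, ih]
    have h2 : Nat.count (fun k => lowL i (lowNine ((9 * q + k) % 9)) = a) 9 = 3 := by
      refine Eq.trans (low_count_congr _ (fun k => lowL i (lowNine k) = a) 9 ?_)
        (low_nine_count i a)
      intro k hk
      have hk9 : (9 * q + k) % 9 = k := by omega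
      simp only [hk9]
    rw [h2]
    ring

private lemma low_first (i : Fin 4) (a : ZMod 3) (q : ℕ) :
    Nat.count (fun v => lowL i (lowCell q v) = a) (9 * q) = 3 * q := by
  rw [← low_periodic i a q]
  apply low_count_congr
  intro k hk
  unfold lowCell
  rw [if_pos hk]

private lemma low_count (m n : ℕ) (hm : 1 ≤ m) (hn : n ≤ 3 * m - 2) (i : Fin 4) (a : ZMod 3) :
    Nat.count (fun v => lowL i (lowCell (m / 3) v) = a) n ≤ m := by
  set q := m / 3 with hq
  rcases le_total n (9 * q) with h | h
  · have h1 := Nat.count_monotone (fun v => lowL i (lowCell q v) = a) h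
    rw [low_first] at h1
    omega
  · obtain ⟨s, rfl⟩ := Nat.exists_eq_add_of_le h
    rw [Nat.count_add, low_first]
    have h2 : Nat.count (fun k => lowL i (lowCell q (9 * q + k)) = a) s
        = Nat.count (fun k => lowL i (lowCap k) = a) s := by
      apply low_count_congr
      intro k hk
      unfold lowCell
      rw [if_neg (by omega), show 9 * q + k - 9 * q = k by omega]
    rw [h2]
    have h3 : Nat.count (fun k => lowL i (lowCap k) = a) s ≤ s := Nat.count_le _
    have h4 : s ≤ 4 := by omega
    have h5 := (Nat.count_monotone (fun k => lowL i (lowCap k) = a) h4).trans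
      (low_cap_count i a)
    omega

/-- ROW LOW. The blow-up of the affine plane of order 3. -/
theorem not_hasMono_low (m n : ℕ) (hm : 1 ≤ m) (hn : n ≤ 3 * m - 2) : ¬ HasMono m 4 n := by
  intro h
  obtain ⟨T, ⟨hT, hc⟩, i, hi⟩ := h (Sym2.lift ⟨fun u v : Fin n =>
    lowCol (lowCell (m / 3) u) (lowCell (m / 3) v), fun u v => lowCol_symm _ _⟩)
  have hadj : ∀ u v : Fin n, T.Adj u v →
      lowL i (lowCell (m / 3) u) = lowL i (lowCell (m / 3) v) := by
    intro u v huv
    have h1 := hi s(u, v) huv
    rw [Sym2.lift_mk] at h1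
    rw [← h1]
    exact lowCol_line _ _
  have hwalk : ∀ x y : T.verts, T.coe.Walk x y →
      lowL i (lowCell (m / 3) x.1) = lowL i (lowCell (m / 3) y.1) := by
    intro x y w
    induction w with
    | nil => rfl
    | cons hh _ ih => exact (hadj _ _ hh).trans ih
  have hne : T.verts.Nonempty := by
    rw [← Set.ncard_pos]
    omega
  obtain ⟨x0, hx0⟩ := hne
  have hline : ∀ y ∈ T.verts, lowL i (lowCell (m / 3) y.1) = lowL i (lowCell (m / 3) x0.1) := by
    intro y hy
    obtain ⟨w⟩ := hT.1.preconnected ⟨y, hy⟩ ⟨x0, hx0⟩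
    exact hwalk _ _ w
  have hcount := low_count m n hm hn i (lowL i (lowCell (m / 3) x0.1))
  rw [Nat.count_eq_card_filter_range] at hcount
  have hsub : T.verts.toFinset.image Fin.val ⊆ (Finset.range n).filter
      (fun v => lowL i (lowCell (m / 3) v) = lowL i (lowCell (m / 3) x0.1)) := by
    intro v hv
    obtain ⟨y, hy, rfl⟩ := Finset.mem_image.mp hv
    rw [Finset.mem_filter, Finset.mem_range]
    exact ⟨y.2, hline y (by simpa using hy)⟩
  have h1 := Finset.card_le_card hsub
  rw [Finset.card_image_of_injective _ Fin.val_injective, ← Set.ncard_eq_toFinset_card', hc] at h1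
  omega

end ZST
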