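import Pool.Agent.ZST.DICHB
import Pool.Agent.ZST.EXT

/-!
# ZST, row TWOL: a rich core forces two labels everywhere
-/

namespace ZST

open Finset Classical

set_option linter.unusedSectionVars false

variable {V : Type} [Fintype V] [DecidableEq V]

private theorem TWOL_lab {G : Type} {H : SimpleGraph V} {w : V → V → G} {K K' : Finset V}
    (h : K ⊆ K') (x : V) : lab H w K x ⊆ lab H w K' x := by
  unfold lab
  exact Finset.image_subset_image (Finset.filter_subset_filter _ h)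

private theorem TWOL_memz {G : Type} {H : SimpleGraph V} {w : V → V → G} {K : Finset V}
    {b : G} {x : V} : x ∈ zlab H w K b ↔ x ∉ K ∧ ∃ a ∈ lab H w K x, a ≠ b := by
  unfold zlab
  rw [Finset.mem_filter]
  exact ⟨fun h => h.2, fun h => ⟨Finset.mem_univ _, h⟩⟩

private theorem TWOL_meml {G : Type} {H : SimpleGraph V} {w : V → V → G} {K : Finset V}
    {x y : V} (hy : y ∈ K) (h : H.Adj y x) : w y x ∈ lab H w K x := by
  unfold lab
  rw [Finset.mem_image]
  exact ⟨y, Finset.mem_filter.2 ⟨hy, h⟩, rfl⟩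

private theorem TWOL_two {p : ℕ} [Fact p.Prime] (hp : 10 ^ 13 ≤ p) {H : SimpleGraph V}
    {w : V → V → ZMod p} (hz : ZF p H w) (hn : 3 * p - 1 ≤ Fintype.card V)
    (K : Finset V) (hc : K.card ≤ 100000) (hund : 200 * (und H K).card ≤ p)
    (hrich : ∀ b, p + 3 ≤ (zlab H w K b).card) (K' : Finset V) (hK' : Core H w K')
    (hKK : K ⊆ K') (hcard : K'.card ≤ K.card + 2) :
    ∃ b b', b ≠ b' ∧
      (univ.filter (fun x => x ∉ K' ∧ ∃ a ∈ lab H w K' x, a ≠ b ∧ a ≠ b')).card ≤ K'.card := by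
  have hd : (K' \ K).card ≤ 2 := by
    rw [Finset.card_sdiff_of_subset hKK]
    omega
  refine dich_big hz K' hK' (by omega) ?_ ?_
  · have h1 : (univ : Finset V) ⊆ (outN H K' ∪ K') ∪ und H K := by
      intro x _
      rw [Finset.mem_union, Finset.mem_union]
      by_cases hx : x ∈ K'
      · exact Or.inl (Or.inr hx)
      · by_cases hu : x ∈ und H K
        · exact Or.inr hu
        · left; left
          unfold outN
          rw [Finset.mem_filter]
          refine ⟨Finset.mem_univ _, hx, ?_⟩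
          unfold und at hu
          rw [Finset.mem_filter] at hu
          push Not at hu
          obtain ⟨k, hk, hk2⟩ := hu (Finset.mem_univ _) (fun h => hx (hKK h))
          exact ⟨k, hKK hk, hk2⟩
    have h2 := Finset.card_le_card h1
    rw [Finset.card_univ] at h2
    have h3 := Finset.card_union_le (outN H K' ∪ K') (und H K)
    have h4 := Finset.card_union_le (outN H K') K'
    omega
  · intro b
    have h1 : zlab H w K b ⊆ zlab H w K' b ∪ (K' \ K) := by
      intro x hx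
      obtain ⟨hxK, a, ha, hab⟩ := TWOL_memz.1 hx
      rw [Finset.mem_union]
      by_cases hxK' : x ∈ K'
      · exact Or.inr (Finset.mem_sdiff.2 ⟨hxK', hxK⟩)
      · exact Or.inl (TWOL_memz.2 ⟨hxK', a, TWOL_lab hKK x ha, hab⟩)
    have h2 := Finset.card_le_card h1
    have h3 := Finset.card_union_le (zlab H w K' b) (K' \ K)
    have h4 := hrich b
    omega

/-- a main label of the core is a main label of every small extension -/
private theorem TWOL_main {p : ℕ} (hp : 10 ^ 13 ≤ p) {H : SimpleGraph V}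
    {w : V → V → ZMod p} (K : Finset V) (hc : K.card ≤ 100000)
    (hrich : ∀ b, p + 3 ≤ (zlab H w K b).card) (b b' : ZMod p)
    (hexc : (univ.filter (fun x => x ∉ K ∧ ∃ a ∈ lab H w K x, a ≠ b ∧ a ≠ b')).card ≤ K.card)
    (K' : Finset V) (hKK : K ⊆ K') (hcard : K'.card ≤ K.card + 2) (c c' : ZMod p)
    (hexc' : (univ.filter (fun x => x ∉ K' ∧ ∃ a ∈ lab H w K' x, a ≠ c ∧ a ≠ c')).card ≤
      K'.card) : b = c ∨ b = c' := by
  by_contra hcon
  rw [not_or] at hcon
  have hd : (K' \ K).card ≤ 2 := by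
    rw [Finset.card_sdiff_of_subset hKK]
    omega
  have h1 : zlab H w K b' ⊆
      ((univ.filter (fun x => x ∉ K' ∧ ∃ a ∈ lab H w K' x, a ≠ c ∧ a ≠ c')) ∪ (K' \ K)) ∪
      (univ.filter (fun x => x ∉ K ∧ ∃ a ∈ lab H w K x, a ≠ b ∧ a ≠ b')) := by
    intro x hx
    obtain ⟨hxK, a, ha, hab⟩ := TWOL_memz.1 hx
    rw [Finset.mem_union, Finset.mem_union]
    by_cases h : a = b
    · left
      by_cases hxK' : x ∈ K'
      · exact Or.inr (Finset.mem_sdiff.2 ⟨hxK', hxK⟩)
      · left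
        rw [Finset.mem_filter]
        refine ⟨Finset.mem_univ _, hxK', a, TWOL_lab hKK x ha, ?_, ?_⟩
        · rw [h]; exact hcon.1
        · rw [h]; exact hcon.2
    · right
      rw [Finset.mem_filter]
      exact ⟨Finset.mem_univ _, hxK, a, ha, h, hab⟩
  have h2 := Finset.card_le_card h1
  have h3 := Finset.card_union_le
    ((univ.filter (fun x => x ∉ K' ∧ ∃ a ∈ lab H w K' x, a ≠ c ∧ a ≠ c')) ∪ (K' \ K))
    (univ.filter (fun x => x ∉ K ∧ ∃ a ∈ lab H w K x, a ≠ b ∧ a ≠ b'))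
  have h4 := Finset.card_union_le
    (univ.filter (fun x => x ∉ K' ∧ ∃ a ∈ lab H w K' x, a ≠ c ∧ a ≠ c')) (K' \ K)
  have h5 := hrich b'
  omega

/-- ROW TWOL. Uses DICHB, EXT and RICH (the hypothesis `hrich`). -/
theorem two_labels_of_rich {p : ℕ} [Fact p.Prime] (hp : 10 ^ 13 ≤ p) {H : SimpleGraph V}
    {w : V → V → ZMod p} (hz : ZF p H w)
    (hdiam : ∀ u v, u ≠ v → H.Adj u v ∨ ∃ z, H.Adj u z ∧ H.Adj z v)
    (hn : 3 * p - 1 ≤ Fintype.card V)
    (K : Finset V) (hK : Core H w K) (hc : K.card ≤ 100000) (hund : 200 * (und H K).card ≤ p)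
    (hrich : ∀ b, p + 3 ≤ (zlab H w K b).card) :
    ∃ b b', b ≠ b' ∧ ∀ y,
      (univ.filter (fun x => H.Adj y x ∧ w y x ≠ b ∧ w y x ≠ b')).card ≤ 300000 := by
  obtain ⟨b, b', hbb, hexc⟩ := TWOL_two hp hz hn K hc hund hrich K hK (Finset.Subset.refl K)
    (by omega)
  refine ⟨b, b', hbb, fun y => ?_⟩
  obtain ⟨K', hK', hKK, hyK, hcard⟩ := ext_core hdiam K hK y
  obtain ⟨c, c', hcc, hexc'⟩ := TWOL_two hp hz hn K hc hund hrich K' hK' hKK hcard
  have hb := TWOL_main hp K hc hrich b b' hexc K' hKK hcard c c' hexc'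
  have hexc2 : (univ.filter (fun x => x ∉ K ∧ ∃ a ∈ lab H w K x, a ≠ b' ∧ a ≠ b)).card ≤
      K.card := by
    refine le_trans (Finset.card_le_card ?_) hexc
    intro x hx
    rw [Finset.mem_filter] at hx ⊢
    obtain ⟨h1, h2, a, ha, h3, h4⟩ := hx
    exact ⟨h1, h2, a, ha, h4, h3⟩
  have hb' := TWOL_main hp K hc hrich b' b hexc2 K' hKK hcard c c' hexc'
  have hset : ∀ a : ZMod p, a ≠ b → a ≠ b' → a ≠ c ∧ a ≠ c' := by
    intro a h1 h2
    rcases hb with hb | hb <;> rcases hb' with hb' | hb'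
    · exact absurd (hb.trans hb'.symm) hbb
    · exact ⟨hb ▸ h1, hb' ▸ h2⟩
    · exact ⟨hb' ▸ h2, hb ▸ h1⟩
    · exact absurd (hb.trans hb'.symm) hbb
  have h1 : (univ.filter (fun x => H.Adj y x ∧ w y x ≠ b ∧ w y x ≠ b')) ⊆
      K' ∪ (univ.filter (fun x => x ∉ K' ∧ ∃ a ∈ lab H w K' x, a ≠ c ∧ a ≠ c')) := by
    intro x hx
    rw [Finset.mem_filter] at hx
    rw [Finset.mem_union]
    by_cases hxK' : x ∈ K'
    · exact Or.inl hxK'
    · right
      rw [Finset.mem_filter]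
      exact ⟨Finset.mem_univ _, hxK', w y x, TWOL_meml hyK hx.2.1, hset _ hx.2.2.1 hx.2.2.2⟩
  have h2 := Finset.card_le_card h1
  have h3 := Finset.card_union_le K'
    (univ.filter (fun x => x ∉ K' ∧ ∃ a ∈ lab H w K' x, a ≠ c ∧ a ≠ c'))
  omega

end ZST
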