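import Pool.Agent.ZST.Defs

/-! Row TYP: most outside vertices are typical. -/

namespace ZST

open Finset Classical

variable {V : Type} [Fintype V] [DecidableEq V]

/-- ROW TYP. Double counting. -/
theorem typical {p : ℕ} (hp : 10 ^ 13 ≤ p) {H : SimpleGraph V}
    {w : V → V → ZMod p} (hsym : ∀ u v, w u v = w v u)
    (hn : 3 * p - 1 ≤ Fintype.card V) (hn' : Fintype.card V ≤ 4 * p)
    (K : Finset V) (b : ZMod p) (hK : K.card ≤ 100000) (hund : 200 * (und H K).card ≤ p)
    (hzl : (zlab H w K b).card ≤ p + 2)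
    (hst : ∀ y, 40000 * (univ.filter (fun x => x ∉ K ∧ lab H w K x = {b} ∧ H.Adj y x ∧
        w y x ≠ b)).card ≤ p) :
    ∃ U : Finset V, 198 * p ≤ 100 * U.card ∧
      ∀ u ∈ U, 100 * (univ.filter (fun x => H.Adj u x ∧ w u x ≠ b)).card ≤ p := by
  have hp0 : 0 < p := lt_of_lt_of_le (by norm_num) hp
  set U0 : Finset V := univ.filter (fun x => x ∉ K ∧ lab H w K x = {b}) with hU0
  have hcov : (univ : Finset V) ⊆ K ∪ (und H K ∪ (zlab H w K b ∪ U0)) := by
    intro x _
    by_cases hxK : x ∈ K
    · exact mem_union_left _ hxK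
    refine mem_union_right _ ?_
    by_cases h1 : ∀ k ∈ K, ¬ H.Adj k x
    · refine mem_union_left _ ?_
      simp only [und, mem_filter, mem_univ, true_and]
      exact ⟨hxK, h1⟩
    refine mem_union_right _ ?_
    by_cases h2 : ∃ a ∈ lab H w K x, a ≠ b
    · refine mem_union_left _ ?_
      simp only [zlab, mem_filter, mem_univ, true_and]
      exact ⟨hxK, h2⟩
    refine mem_union_right _ ?_
    push Not at h1 h2
    obtain ⟨k, hk, hkx⟩ := h1
    have h3 : w k x ∈ lab H w K x := by
      simp only [lab, mem_image, mem_filter]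
      exact ⟨k, ⟨hk, hkx⟩, rfl⟩
    rw [hU0, mem_filter]
    refine ⟨mem_univ _, hxK, ?_⟩
    ext a
    rw [mem_singleton]
    constructor
    · intro ha
      exact h2 a ha
    · rintro rfl
      rw [← h2 _ h3]
      exact h3
  have hcard : Fintype.card V ≤ K.card + ((und H K).card + ((zlab H w K b).card + U0.card)) := by
    rw [← card_univ]
    refine (card_le_card hcov).trans ((card_union_le _ _).trans ?_)
    refine Nat.add_le_add_left ((card_union_le _ _).trans ?_) _
    exact Nat.add_le_add_left (card_union_le _ _) _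
  set U : Finset V := U0.filter
    (fun u => 100 * (univ.filter (fun x => H.Adj u x ∧ w u x ≠ b)).card ≤ p) with hU
  set B : Finset V := U0.filter
    (fun u => ¬ 100 * (univ.filter (fun x => H.Adj u x ∧ w u x ≠ b)).card ≤ p) with hB
  have hUB : U.card + B.card = U0.card := by
    rw [hU, hB]
    exact card_filter_add_card_filter_not _
  -- double counting
  have h1 : p * B.card ≤ 100 * ∑ u ∈ B, (univ.filter (fun x => H.Adj u x ∧ w u x ≠ b)).card := by
    rw [mul_sum, mul_comm, ← smul_eq_mul, ← sum_const]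
    refine sum_le_sum fun u hu => ?_
    have := (mem_filter.1 hu).2
    omega
  have h2 : ∑ u ∈ B, (univ.filter (fun x => H.Adj u x ∧ w u x ≠ b)).card ≤
      ∑ y : V, (univ.filter (fun x => x ∉ K ∧ lab H w K x = {b} ∧ H.Adj y x ∧ w y x ≠ b)).card := by
    have e1 : ∑ u ∈ B, (univ.filter (fun x => H.Adj u x ∧ w u x ≠ b)).card ≤
        ∑ u ∈ U0, (univ.filter (fun x => H.Adj u x ∧ w u x ≠ b)).card :=
      sum_le_sum_of_subset (filter_subset _ _)
    refine e1.trans (le_of_eq ?_)
    have e2 : ∀ u : V, (univ.filter (fun x => H.Adj u x ∧ w u x ≠ b)).card =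
        ∑ y : V, if H.Adj u y ∧ w u y ≠ b then 1 else 0 := fun u => card_filter _ _
    have e3 : ∀ y : V,
        (univ.filter (fun x => x ∉ K ∧ lab H w K x = {b} ∧ H.Adj y x ∧ w y x ≠ b)).card =
        ∑ x ∈ U0, if H.Adj x y ∧ w x y ≠ b then 1 else 0 := by
      intro y
      rw [← card_filter, hU0, filter_filter]
      congr 1
      ext x
      simp only [mem_filter, mem_univ, true_and]
      rw [hsym y x, H.adj_comm y x]
      tauto
    rw [sum_congr rfl fun u _ => e2 u, sum_congr rfl fun y _ => e3 y, sum_comm]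
  have h3 : 40000 * ∑ y : V,
      (univ.filter (fun x => x ∉ K ∧ lab H w K x = {b} ∧ H.Adj y x ∧ w y x ≠ b)).card ≤
      4 * p * p := by
    rw [mul_sum]
    refine (sum_le_sum fun y _ => hst y).trans ?_
    rw [sum_const, card_univ, smul_eq_mul]
    exact Nat.mul_le_mul_right _ hn'
  have h4 : 100 * B.card ≤ p := by
    have h5 : 400 * p * (100 * B.card) ≤ 400 * p * p := by
      calc 400 * p * (100 * B.card) = 40000 * (p * B.card) := by ring
        _ ≤ 40000 * (100 * ∑ u ∈ B, (univ.filter (fun x => H.Adj u x ∧ w u x ≠ b)).card) :=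
            Nat.mul_le_mul_left _ h1
        _ ≤ 40000 * (100 * ∑ y : V, (univ.filter
            (fun x => x ∉ K ∧ lab H w K x = {b} ∧ H.Adj y x ∧ w y x ≠ b)).card) :=
            Nat.mul_le_mul_left _ (Nat.mul_le_mul_left _ h2)
        _ = 100 * (40000 * ∑ y : V, (univ.filter
            (fun x => x ∉ K ∧ lab H w K x = {b} ∧ H.Adj y x ∧ w y x ≠ b)).card) := by ring
        _ ≤ 100 * (4 * p * p) := Nat.mul_le_mul_left _ h3
        _ = 400 * p * p := by ring
    exact Nat.le_of_mul_le_mul_left h5 (by omega)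
  refine ⟨U, ?_, fun u hu => (mem_filter.1 hu).2⟩
  have hp' : 10000000000000 ≤ p := by norm_num at hp; exact hp
  omega

end ZST
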