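import Pool.Agent.ZST.C5
import Pool.Agent.ZST.TWOL
import Pool.Agent.ZST.TC
import Pool.Agent.ZST.DIAM
import Pool.Agent.ZST.STAB
import Pool.Agent.ZST.TYP
import Pool.Agent.ZST.KEY
import Pool.Agent.ZST.CONVA
import Pool.Agent.ZST.CONVB
import Pool.Agent.ZST.EASY
import Pool.Agent.ZST.LOW
import Pool.Agent.ZST.FIN
import Pool.Agent.ZST.STAR

namespace ZST

open Finset Classical

section Kind

variable {V : Type} [Fintype V] [DecidableEq V]

theorem nb_add_compl (H : SimpleGraph V) (v : V) :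
    (nb H v).card + (nb Hᶜ v).card + 1 = Fintype.card V := by
  have h1 : Disjoint (nb H v) (nb Hᶜ v) := by
    rw [Finset.disjoint_left]
    intro x hx hx'
    simp only [nb, mem_filter, mem_univ, true_and, SimpleGraph.compl_adj] at hx hx'
    exact hx'.2 hx
  have h2 : insert v (nb H v ∪ nb Hᶜ v) = (univ : Finset V) := by
    ext x
    simp only [nb, mem_insert, mem_union, mem_filter, mem_univ, true_and,
      SimpleGraph.compl_adj, iff_true]
    by_cases hx : x = v
    · exact Or.inl hx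
    · by_cases h : H.Adj v x
      · exact Or.inr (Or.inl h)
      · exact Or.inr (Or.inr ⟨fun h' => hx h'.symm, h⟩)
  have h3 : v ∉ nb H v ∪ nb Hᶜ v := by
    simp [nb]
  rw [← Finset.card_univ, ← h2, Finset.card_insert_of_notMem h3, Finset.card_union_of_disjoint h1]

theorem exists_rich {p : ℕ} [Fact p.Prime] (hp : 10 ^ 13 ≤ p) [Nonempty V] {H : SimpleGraph V}
    {w w' : V → V → ZMod p} (hz : ZF p H w) (hz' : ZF p Hᶜ w')
    (hdiam : ∀ u v, u ≠ v → H.Adj u v ∨ ∃ z, H.Adj u z ∧ H.Adj z v)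
    (hdeg : ∀ v, p ≤ (nb H v).card) (hn : 3 * p - 1 ≤ Fintype.card V)
    (hn' : Fintype.card V ≤ 4 * p) :
    ∃ K, Core H w K ∧ K.card ≤ 100000 ∧ 200 * (und H K).card ≤ p ∧
      ∀ b, p + 3 ≤ (zlab H w K b).card := by
  by_contra hcon
  have hW : ∀ K, Core H w K → K.card ≤ 100000 → 200 * (und H K).card ≤ p →
      ∃ b, (zlab H w K b).card ≤ p + 2 := by
    intro K h1 h2 h3
    by_contra h4
    apply hcon
    refine ⟨K, h1, h2, h3, ?_⟩
    intro b
    by_contra h5
    exact h4 ⟨b, by omega⟩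
  obtain ⟨K, b, _, hc, hund, hz2, hst⟩ := stable_core hp hz.1 hdiam hdeg hn hn' hW
  obtain ⟨U, hU, hUt⟩ := typical hp hz.1 hn hn' K b hc hund hz2 hst
  exact no_typical hp hz hz' hdeg hn hn' b U hU hUt

theorem two_labels {p : ℕ} [Fact p.Prime] (hp : 10 ^ 13 ≤ p) [Nonempty V] {H : SimpleGraph V}
    {w w' : V → V → ZMod p} (hz : ZF p H w) (hz' : ZF p Hᶜ w')
    (hdeg : ∀ v, p ≤ (nb H v).card) (hn : 3 * p - 1 ≤ Fintype.card V)
    (hn' : Fintype.card V ≤ 4 * p) :
    ∃ b b', b ≠ b' ∧ ∀ y,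
      (univ.filter (fun x => H.Adj y x ∧ w y x ≠ b ∧ w y x ≠ b')).card ≤ 300000 := by
  have hdiam := fun u v huv => diam_two (H := H) hz' hn u v huv
  obtain ⟨K, hK, hc, hund, hr⟩ := exists_rich hp hz hz' hdiam hdeg hn hn'
  exact two_labels_of_rich hp hz hdiam hn K hK hc hund hr

theorem reach_of_TR {G : Type} [AddCommGroup G] {E : V → V → Prop} {w : V → V → G}
    {S : Finset V} {s : G} (h : TR E w S s) {Γ : SimpleGraph V}
    (hE : ∀ u v, E u v → Γ.Reachable u v) : ∃ v, S ⊆ cp Γ v := by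
  induction h with
  | single v => exact ⟨v, by intro x hx; simp only [mem_singleton] at hx; subst hx; simp [cp]⟩
  | add h hu hv he ih =>
    obtain ⟨v0, h0⟩ := ih
    refine ⟨v0, ?_⟩
    intro x hx
    rw [mem_insert] at hx
    rcases hx with rfl | hx
    · have := h0 hu
      simp only [cp, mem_filter, mem_univ, true_and] at this ⊢
      exact this.trans (hE _ _ he)
    · exact h0 hx

end Kind

/-- the two kinds -/
def kindOne {m n : ℕ} (c : Sym2 (Fin n) → ZMod m ⊕ ZMod m) : SimpleGraph (Fin n) where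
  Adj u v := u ≠ v ∧ ∃ a, c s(u, v) = Sum.inl a
  symm := ⟨fun u v h => ⟨h.1.symm, by
    obtain ⟨a, ha⟩ := h.2
    exact ⟨a, by rw [Sym2.eq_swap]; exact ha⟩⟩⟩
  loopless := ⟨fun _ h => h.1 rfl⟩

theorem kindOne_compl {m n : ℕ} (c : Sym2 (Fin n) → ZMod m ⊕ ZMod m) (u v : Fin n) :
    (kindOne c)ᶜ.Adj u v ↔ u ≠ v ∧ ∃ a, c s(u, v) = Sum.inr a := by
  rw [SimpleGraph.compl_adj]
  constructor
  · rintro ⟨h1, h2⟩
    refine ⟨h1, ?_⟩
    rcases hc : c s(u, v) with a | a
    · exact absurd ⟨h1, a, hc⟩ h2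
    · exact ⟨a, rfl⟩
  · rintro ⟨h1, a, ha⟩
    refine ⟨h1, ?_⟩
    rintro ⟨_, a', ha'⟩
    rw [ha] at ha'
    exact absurd ha' (by simp)

theorem zf_one {p n : ℕ} (c : Sym2 (Fin n) → ZMod p ⊕ ZMod p)
    (hc : ∀ T, IsCopy p n T → ¬ ZeroSum c T) :
    ZF p (kindOne c) (fun u v => Sum.elim id (fun _ => (0 : ZMod p)) (c s(u, v))) := by
  refine ⟨fun u v => ?_, ?_⟩
  · show Sum.elim id (fun _ => (0 : ZMod p)) (c s(u, v)) =
      Sum.elim id (fun _ => (0 : ZMod p)) (c s(v, u))
    rw [Sym2.eq_swap]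
  intro S hS hT
  obtain ⟨T, hT1, hT2, hT3⟩ := copy_of_tr (m := p) (n := n)
    (W := fun e => Sum.elim id (fun _ => (0 : ZMod p)) (c e)) hS hT
  refine hc T hT1 (Or.inl ⟨?_, hT3⟩)
  intro e
  induction e using Sym2.ind with
  | _ u v =>
    intro he
    rw [SimpleGraph.Subgraph.mem_edgeSet] at he
    rcases hT2 u v he with h | h
    · exact h.2
    · rw [Sym2.eq_swap]; exact h.2

theorem zf_two {p n : ℕ} (c : Sym2 (Fin n) → ZMod p ⊕ ZMod p)
    (hc : ∀ T, IsCopy p n T → ¬ ZeroSum c T) :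
    ZF p (kindOne c)ᶜ (fun u v => Sum.elim (fun _ => (0 : ZMod p)) id (c s(u, v))) := by
  refine ⟨fun u v => ?_, ?_⟩
  · show Sum.elim (fun _ => (0 : ZMod p)) id (c s(u, v)) =
      Sum.elim (fun _ => (0 : ZMod p)) id (c s(v, u))
    rw [Sym2.eq_swap]
  intro S hS hT
  obtain ⟨T, hT1, hT2, hT3⟩ := copy_of_tr (m := p) (n := n)
    (W := fun e => Sum.elim (fun _ => (0 : ZMod p)) id (c e)) hS hT
  refine hc T hT1 (Or.inr ⟨?_, hT3⟩)
  intro e
  induction e using Sym2.ind with
  | _ u v =>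
    intro he
    rw [SimpleGraph.Subgraph.mem_edgeSet] at he
    rcases hT2 u v he with h | h
    · exact ((kindOne_compl c u v).1 h).2
    · rw [Sym2.eq_swap]; exact ((kindOne_compl c v u).1 h).2

/-- the four-colouring -/
noncomputable def four {n : ℕ} (H R1 R2 : SimpleGraph (Fin n)) : Sym2 (Fin n) → Fin 4 :=
  Sym2.lift ⟨fun u v => if H.Adj u v then (if R1.Reachable u v then 0 else 1)
      else (if R2.Reachable u v then 2 else 3), by
    intro u v
    have h1 : H.Adj u v ↔ H.Adj v u := SimpleGraph.adj_comm _ _ _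
    have h2 : R1.Reachable u v ↔ R1.Reachable v u := SimpleGraph.reachable_comm
    have h3 : R2.Reachable u v ↔ R2.Reachable v u := SimpleGraph.reachable_comm
    simp only [h1, h2, h3]⟩

theorem four_mk {n : ℕ} (H R1 R2 : SimpleGraph (Fin n)) (u v : Fin n) :
    four H R1 R2 s(u, v) = if H.Adj u v then (if R1.Reachable u v then 0 else 1)
      else (if R2.Reachable u v then 2 else 3) := rfl

theorem hasZero_of_hasMono {p n : ℕ} [Fact p.Prime] (hp : 10 ^ 13 ≤ p) (hn : 3 * p - 1 ≤ n)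
    (hM : HasMono p 4 n) : HasZero p n := by
  by_contra hcon
  unfold HasZero at hcon
  push Not at hcon
  obtain ⟨c, hc0⟩ := hcon
  have hc : ∀ T, IsCopy p n T → ¬ ZeroSum c T := fun T h1 => hc0 T h1
  have hz := zf_one c hc
  have hz' := zf_two c hc
  set H := kindOne c with hH
  set w : Fin n → Fin n → ZMod p :=
    (fun u v => Sum.elim id (fun _ => (0 : ZMod p)) (c s(u, v))) with hw
  set w' : Fin n → Fin n → ZMod p :=
    (fun u v => Sum.elim (fun _ => (0 : ZMod p)) id (c s(u, v))) with hw'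
  have hcard : Fintype.card (Fin n) = n := Fintype.card_fin n
  have hn1 : 3 * p - 1 ≤ Fintype.card (Fin n) := by rw [hcard]; exact hn
  have hpos : 0 < n := by omega
  have : Nonempty (Fin n) := ⟨⟨0, hpos⟩⟩
  have hcc : Hᶜᶜ = H := compl_compl H
  have hz'' : ZF p Hᶜᶜ w := by rw [hcc]; exact hz
  have hd1 : ∀ v, (nb H v).card ≤ 2 * p - 2 := fun v => nb_card_le hz v
  have hd2 : ∀ v, (nb Hᶜ v).card ≤ 2 * p - 2 := fun v => nb_card_le hz' v
  have hsum := fun v => nb_add_compl H v
  have hn2 : Fintype.card (Fin n) ≤ 4 * p := by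
    have := hsum ⟨0, hpos⟩
    have a1 := hd1 ⟨0, hpos⟩
    have a2 := hd2 ⟨0, hpos⟩
    omega
  have hdeg : ∀ v, p ≤ (nb H v).card := by
    intro v
    have := hsum v
    have a2 := hd2 v
    omega
  have hdeg' : ∀ v, p ≤ (nb Hᶜ v).card := by
    intro v
    have := hsum v
    have a2 := hd1 v
    omega
  obtain ⟨b0, b1, hb01, hb⟩ := two_labels hp hz hz' hdeg hn1 hn2
  obtain ⟨b2, b3, hb23, hb'⟩ := two_labels (H := Hᶜ) hp hz' hz'' hdeg' hn1 hn2
  have hF : Four (Fin n) p 600000 ![lg H w b0, lg H w b1, lg Hᶜ w' b2, lg Hᶜ w' b3] := by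
    refine ⟨hp, by norm_num, hn1, hn2, ?_, ?_, ?_⟩
    · intro s t u v hst h1 h2
      fin_cases s <;> fin_cases t <;>
        simp only [lg, Fin.zero_eta, Fin.mk_one, Fin.reduceFinMk, Matrix.cons_val_zero,
          Matrix.cons_val_one, Matrix.cons_val, ne_eq, not_true_eq_false, SimpleGraph.compl_adj]
          at hst h1 h2
      all_goals first
        | exact hb01 (h1.2.1.symm.trans h2.2.1)
        | exact hb01 (h2.2.1.symm.trans h1.2.1)
        | exact hb23 (h1.2.1.symm.trans h2.2.1)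
        | exact hb23 (h2.2.1.symm.trans h1.2.1)
        | exact h1.1.2 h2.1
        | exact h2.1.2 h1.1
    · intro u
      have hsub : (univ.filter (fun v => v ≠ u ∧
          ∀ t, ¬ ((![lg H w b0, lg H w b1, lg Hᶜ w' b2, lg Hᶜ w' b3] : Fin 4 → _) t).Adj u v)) ⊆
          (univ.filter (fun x => H.Adj u x ∧ w u x ≠ b0 ∧ w u x ≠ b1)) ∪
          (univ.filter (fun x => Hᶜ.Adj u x ∧ w' u x ≠ b2 ∧ w' u x ≠ b3)) := by
        intro x hx
        simp only [mem_filter, mem_univ, true_and] at hx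
        obtain ⟨hx1, hx2⟩ := hx
        have t0 := hx2 0
        have t1 := hx2 1
        have t2 := hx2 2
        have t3 := hx2 3
        simp only [lg, Matrix.cons_val_zero, Matrix.cons_val_one, Matrix.cons_val] at t0 t1 t2 t3
        simp only [mem_union, mem_filter, mem_univ, true_and]
        by_cases hA : H.Adj u x
        · left
          refine ⟨hA, fun h => t0 ⟨hA, h, ?_⟩, fun h => t1 ⟨hA, h, ?_⟩⟩
          · rw [← hz.1]; exact h
          · rw [← hz.1]; exact h
        · right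
          have hA' : Hᶜ.Adj u x := by
            rw [SimpleGraph.compl_adj]; exact ⟨fun h => hx1 h.symm, hA⟩
          refine ⟨hA', fun h => t2 ⟨hA', h, ?_⟩, fun h => t3 ⟨hA', h, ?_⟩⟩
          · rw [← hz'.1]; exact h
          · rw [← hz'.1]; exact h
      refine (card_le_card hsub).trans ((card_union_le _ _).trans ?_)
      exact (Nat.add_le_add (hb u) (by convert hb' u)).trans (by norm_num)
    · intro t v
      fin_cases t
      · exact comp_card_le hz b0 v
      · exact comp_card_le hz b1 v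
      · exact comp_card_le hz' b2 v
      · exact comp_card_le hz' b3 v
  have hbig : ∀ v, p + 1 ≤ 2 * (comp H w b0 v).card := by
    intro v
    have h1 : 97 * p ≤ 100 * (comp H w b0 v).card := c_all hF v 0
    omega
  have hbig' : ∀ v, p + 1 ≤ 2 * (comp Hᶜ w' b2 v).card := by
    intro v
    have h1 : 97 * p ≤ 100 * (comp Hᶜ w' b2 v).card := c_all hF v 2
    omega
  obtain ⟨T, hT, i, hi⟩ := hM (four H (lg H w b0) (lg Hᶜ w' b2))
  have hadj : ∀ u v, T.Adj u v → four H (lg H w b0) (lg Hᶜ w' b2) s(u, v) = i := by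
    intro u v h
    exact hi _ (by rw [SimpleGraph.Subgraph.mem_edgeSet]; exact h)
  have hne : ∀ u v, T.Adj u v → u ≠ v := fun u v h => T.adj_sub h |>.ne
  fin_cases i
  · -- inside a component of b0
    obtain ⟨S, _, hS, hTR⟩ := tr_of_copy hT
      (fun e => Sum.elim id (fun _ => (0 : ZMod p)) (c e))
      (fun u v => (lg H w b0).Reachable u v) (by
        intro u v h
        have := hadj u v h
        rw [four_mk] at this
        by_contra h'
        split_ifs at this <;> simp_all)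
    obtain ⟨v, hv⟩ := reach_of_TR hTR (Γ := lg H w b0) (fun u v h => h)
    have h1 := card_le_card hv
    have h2 : (cp (lg H w b0) v).card ≤ p := comp_card_le hz b0 v
    omega
  · obtain ⟨S, _, hS, hTR⟩ := tr_of_copy hT
      (fun e => Sum.elim id (fun _ => (0 : ZMod p)) (c e))
      (btw H w b0).Adj (by
        intro u v h
        have := hadj u v h
        rw [four_mk] at this
        split_ifs at this with h1 h2 h3 <;> first | exact ⟨h1, h2⟩ | (simp at this))
    exact key hz b0 hbig S hS _ hTR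
  · obtain ⟨S, _, hS, hTR⟩ := tr_of_copy hT
      (fun e => Sum.elim (fun _ => (0 : ZMod p)) id (c e))
      (fun u v => (lg Hᶜ w' b2).Reachable u v) (by
        intro u v h
        have := hadj u v h
        rw [four_mk] at this
        by_contra h'
        split_ifs at this <;> simp_all)
    obtain ⟨v, hv⟩ := reach_of_TR hTR (Γ := lg Hᶜ w' b2) (fun u v h => h)
    have h1 := card_le_card hv
    have h2 : (cp (lg Hᶜ w' b2) v).card ≤ p := comp_card_le hz' b2 v
    omega
  · obtain ⟨S, _, hS, hTR⟩ := tr_of_copy hT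
      (fun e => Sum.elim (fun _ => (0 : ZMod p)) id (c e))
      (btw Hᶜ w' b2).Adj (by
        intro u v h
        have := hadj u v h
        rw [four_mk] at this
        have hne' := hne u v h
        split_ifs at this with h1 h2 h3 <;>
          first
          | exact ⟨by rw [SimpleGraph.compl_adj]; exact ⟨hne', h1⟩, h3⟩
          | exact ⟨by rw [SimpleGraph.compl_adj]; exact ⟨hne', h1⟩, h2⟩
          | (simp at this))
    exact key hz' b2 hbig' S hS _ hTR

/-- **Main theorem.** -/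
theorem main (p : ℕ) (hprime : p.Prime) (hp : 10 ^ 13 ≤ p) :
    (∀ n, HasMono p 4 n ↔ HasZero p n) ∧
    ∃ R, IsLeast {n | HasMono p 4 n} R ∧ IsLeast {n | HasZero p n} R := by
  have : Fact p.Prime := ⟨hprime⟩
  have h1 : ∀ n, HasMono p 4 n ↔ HasZero p n := by
    intro n
    constructor
    · intro h
      by_cases hn : 3 * p - 1 ≤ n
      · exact hasZero_of_hasMono hp hn h
      · exact absurd h (not_hasMono_low p n (by omega) (by omega))
    · exact hasMono_of_hasZero (by omega)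
  refine ⟨h1, ?_⟩
  have hne : ∃ n, HasZero p n := ⟨4 * p, hasZero_large p⟩
  have heq : {n | HasMono p 4 n} = {n | HasZero p n} := by
    ext n; exact h1 n
  refine ⟨Nat.find hne, ?_, ?_⟩
  · rw [heq]
    exact ⟨Nat.find_spec hne, fun m hm => Nat.find_min' hne hm⟩
  · exact ⟨Nat.find_spec hne, fun m hm => Nat.find_min' hne hm⟩

end ZST
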