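import Pool.Agent.ZST.Defs
import Pool.Agent.ZST.CDF

/-! Row NEST: nested families of labels. -/

namespace ZST

open Finset Classical

private theorem nest_card_fin (l m : ℕ) :
    (univ.filter (fun j : Fin l => (j : ℕ) + 1 ≤ m)).card = min l m := by
  rw [Finset.card_filter, Fin.sum_univ_eq_sum_range (fun j => if j + 1 ≤ m then 1 else 0) l,
    ← Finset.card_filter]
  have : (Finset.range l).filter (fun j => j + 1 ≤ m) = Finset.range (min l m) := by
    ext j
    simp only [Finset.mem_filter, Finset.mem_range]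
    omega
  rw [this, Finset.card_range]

private theorem nest_sum {p : ℕ} [Fact p.Prime] (l : ℕ) (n : ZMod p → ℕ) :
    ∑ j : Fin l, (univ.filter (fun a : ZMod p => (j : ℕ) + 1 ≤ n a)).card =
      ∑ a : ZMod p, min l (n a) := by
  simp only [Finset.card_filter]
  rw [Finset.sum_comm]
  refine Finset.sum_congr rfl fun a _ => ?_
  rw [← Finset.card_filter, nest_card_fin]

/-- ROW NEST. Uses CDF. -/
theorem nest {p : ℕ} [Fact p.Prime] {W : Type} [DecidableEq W] (X : Finset W)
    (A : W → Finset (ZMod p)) (l : ℕ)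
    (hl : 1 ≤ l) (b : ZMod p) (hb : l ≤ (X.filter (fun x => b ∈ A x)).card)
    (hs : l + p - 1 ≤ ∑ a : ZMod p, min l (X.filter (fun x => a ∈ A x)).card) (t : ZMod p) :
    ∃ L ⊆ X, L.card = l ∧ ∃ f : W → ZMod p, (∀ x ∈ L, f x ∈ A x) ∧ ∑ x ∈ L, f x = t := by
  set n : ZMod p → ℕ := fun a => (X.filter (fun x => a ∈ A x)).card with hn
  obtain ⟨f, hf, hsum⟩ := cd_family l hl
    (fun j : Fin l => univ.filter (fun a : ZMod p => (j : ℕ) + 1 ≤ n a))
    (fun j => ⟨b, by
      rw [Finset.mem_filter]
      have h1 : l ≤ n b := hb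
      have h2 := j.isLt
      exact ⟨Finset.mem_univ _, by omega⟩⟩)
    (by rw [nest_sum l n]; exact hs) t
  have hf' : ∀ j : Fin l, (j : ℕ) + 1 ≤ (X.filter (fun x => f j ∈ A x)).card := fun j =>
    (Finset.mem_filter.1 (hf j)).2
  have hall : ∀ s : Finset (Fin l),
      s.card ≤ (s.biUnion (fun j => X.filter (fun x => f j ∈ A x))).card := by
    intro s
    rcases s.eq_empty_or_nonempty with h0 | h0
    · simp [h0]
    · have h1 := Finset.max'_mem s h0
      have h2 : s.card ≤ (s.max' h0 : ℕ) + 1 := by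
        have h3 : s.image (fun j : Fin l => (j : ℕ)) ⊆ Finset.range ((s.max' h0 : ℕ) + 1) := by
          intro i hi
          obtain ⟨j, hj, rfl⟩ := Finset.mem_image.1 hi
          have h4 : j ≤ s.max' h0 := Finset.le_max' s j hj
          rw [Finset.mem_range]
          have h5 : (j : ℕ) ≤ (s.max' h0 : ℕ) := h4
          omega
        have h6 := Finset.card_le_card h3
        rwa [Finset.card_range, Finset.card_image_of_injective _ Fin.val_injective] at h6
      refine h2.trans ((hf' (s.max' h0)).trans (Finset.card_le_card ?_))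
      exact Finset.subset_biUnion_of_mem (fun j => X.filter (fun x => f j ∈ A x)) h1
  obtain ⟨g, hg, hgm⟩ := (Finset.all_card_le_biUnion_card_iff_exists_injective
    (fun j : Fin l => X.filter (fun x => f j ∈ A x))).1 hall
  refine ⟨univ.image g, ?_, ?_, Function.extend g f 0, ?_, ?_⟩
  · intro x hx
    obtain ⟨j, -, rfl⟩ := Finset.mem_image.1 hx
    exact (Finset.mem_filter.1 (hgm j)).1
  · rw [Finset.card_image_of_injective _ hg, Finset.card_univ, Fintype.card_fin]
  · intro x hx
    obtain ⟨j, -, rfl⟩ := Finset.mem_image.1 hx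
    rw [hg.extend_apply]
    exact (Finset.mem_filter.1 (hgm j)).2
  · rw [Finset.sum_image (fun i _ j _ h => hg h)]
    simp only [hg.extend_apply]
    exact hsum

end ZST
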